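import Mathlib

namespace R307.EM

open Finset

section Weights

variable {α : Type*} [Fintype α] [DecidableEq α]

/-- Weight of the set `P` when every element is kept independently with probability `x`. -/
noncomputable def wt (x : ℝ) (P : Finset α) : ℝ :=
  x ^ P.card * (1 - x) ^ (Fintype.card α - P.card)

lemma wt_nonneg {x : ℝ} (h0 : 0 ≤ x) (h1 : x ≤ 1) (P : Finset α) : 0 ≤ wt x P := by
  unfold wt
  have : 0 ≤ 1 - x := by linarith
  positivity

lemma sum_wt (x : ℝ) : ∑ P : Finset α, wt x P = 1 := by
  unfold wt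
  rw [Fintype.sum_pow_mul_eq_add_pow]
  simp

/-- Indicator of the event that `P` meets `U`. -/
noncomputable def hit (P U : Finset α) : ℝ := if Disjoint P U then 0 else 1

lemma hit_nonneg (P U : Finset α) : 0 ≤ hit P U := by
  unfold hit; split_ifs <;> norm_num

lemma hit_le_one (P U : Finset α) : hit P U ≤ 1 := by
  unfold hit; split_ifs <;> norm_num

lemma hit_mono (U : Finset α) : Monotone (fun P : Finset α => hit P U) := by
  intro P Q h
  simp only [hit]
  by_cases hQ : Disjoint Q U
  · have hP : Disjoint P U := Finset.disjoint_of_subset_left h hQ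
    simp [hP, hQ]
  · simp only [hQ, if_false]
    split_ifs <;> norm_num

lemma sum_wt_miss (x : ℝ) (U : Finset α) :
    ∑ P : Finset α, wt x P * (1 - hit P U) = (1 - x) ^ U.card := by
  have h1 : ∀ P : Finset α, wt x P * (1 - hit P U) = if P ∈ (Uᶜ).powerset then wt x P else 0 := by
    intro P
    have : (P ∈ (Uᶜ).powerset) ↔ Disjoint P U := by
      rw [Finset.mem_powerset, Finset.subset_compl_iff_disjoint_right]
    unfold hit
    by_cases h : Disjoint P U
    · rw [if_pos (this.2 h), if_pos h]; ring
    · rw [if_neg (fun h' => h (this.1 h')), if_neg h]; ring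
  simp_rw [h1]
  rw [Finset.sum_ite_mem, Finset.univ_inter]
  have h2 : ∀ P ∈ (Uᶜ).powerset,
      wt x P = (1 - x) ^ U.card * (x ^ P.card * (1 - x) ^ ((Uᶜ).card - P.card)) := by
    intro P hP
    have hc : P.card ≤ (Uᶜ).card := Finset.card_le_card (Finset.mem_powerset.1 hP)
    have hU : U.card + (Uᶜ).card = Fintype.card α := Finset.card_add_card_compl U
    have : Fintype.card α - P.card = U.card + ((Uᶜ).card - P.card) := by omega
    unfold wt
    rw [this, pow_add]; ring
  rw [Finset.sum_congr rfl h2, ← Finset.mul_sum, Finset.sum_pow_mul_eq_add_pow]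
  simp

lemma sum_wt_hit (x : ℝ) (U : Finset α) :
    ∑ P : Finset α, wt x P * hit P U = 1 - (1 - x) ^ U.card := by
  have := sum_wt_miss x U
  have h2 := sum_wt (α := α) x
  have h3 : ∑ P : Finset α, wt x P * (1 - hit P U)
      = ∑ P : Finset α, wt x P - ∑ P : Finset α, wt x P * hit P U := by
    rw [← Finset.sum_sub_distrib]
    exact Finset.sum_congr rfl (fun P _ => by ring)
  rw [h3, h2] at this
  linarith

lemma wt_supermod (x : ℝ) (A B : Finset α) :
    wt x A * wt x B ≤ wt x (A ⊓ B) * wt x (A ⊔ B) := by
  apply le_of_eq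
  have h1 : (A ⊓ B).card + (A ⊔ B).card = A.card + B.card := by
    have := Finset.card_inter_add_card_union A B
    simpa using this
  have ha : A.card ≤ Fintype.card α := Finset.card_le_univ _
  have hb : B.card ≤ Fintype.card α := Finset.card_le_univ _
  have hc : (A ⊓ B).card ≤ Fintype.card α := Finset.card_le_univ _
  have hd : (A ⊔ B).card ≤ Fintype.card α := Finset.card_le_univ _
  unfold wt
  have e1 : x ^ A.card * (1 - x) ^ (Fintype.card α - A.card)
      * (x ^ B.card * (1 - x) ^ (Fintype.card α - B.card))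
      = x ^ (A.card + B.card)
        * (1 - x) ^ ((Fintype.card α - A.card) + (Fintype.card α - B.card)) := by
    rw [pow_add, pow_add]; ring
  have e2 : x ^ (A ⊓ B).card * (1 - x) ^ (Fintype.card α - (A ⊓ B).card)
      * (x ^ (A ⊔ B).card * (1 - x) ^ (Fintype.card α - (A ⊔ B).card))
      = x ^ ((A ⊓ B).card + (A ⊔ B).card)
        * (1 - x) ^ ((Fintype.card α - (A ⊓ B).card) + (Fintype.card α - (A ⊔ B).card)) := by
    rw [pow_add, pow_add]; ring
  rw [e1, e2, h1]
  congr 2
  omega

/-- Positive association: the probability of meeting all the sets `V k` is at least the product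
of the probabilities. -/
lemma prob_hits {κ : Type*} {x : ℝ} (h0 : 0 ≤ x) (h1 : x ≤ 1) (T : Finset κ)
    (V : κ → Finset α) :
    ∏ k ∈ T, (1 - (1 - x) ^ (V k).card) ≤ ∑ P : Finset α, wt x P * ∏ k ∈ T, hit P (V k) := by
  classical
  induction T using Finset.induction_on with
  | empty => simp [sum_wt]
  | insert k T hk ih =>
    simp only [Finset.prod_insert hk]
    have hg0 : ∀ P : Finset α, 0 ≤ ∏ k ∈ T, hit P (V k) := fun P =>
      Finset.prod_nonneg (fun k _ => hit_nonneg _ _)
    have key := fkg (μ := fun P : Finset α => wt x P) (f := fun P => hit P (V k))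
      (g := fun P => ∏ k ∈ T, hit P (V k))
      (fun P => wt_nonneg h0 h1 P) (fun P => hit_nonneg _ _) hg0 (hit_mono _)
      (by
        intro P Q hPQ
        exact Finset.prod_le_prod (fun k _ => hit_nonneg _ _) (fun k _ => hit_mono (V k) hPQ))
      (fun A B => wt_supermod x A B)
    rw [sum_wt, one_mul, sum_wt_hit] at key
    have hpow : (1 - x) ^ (V k).card ≤ 1 := pow_le_one₀ (by linarith) (by linarith)
    calc (1 - (1 - x) ^ (V k).card) * ∏ k ∈ T, (1 - (1 - x) ^ (V k).card)
        ≤ (1 - (1 - x) ^ (V k).card) * ∑ P : Finset α, wt x P * ∏ k ∈ T, hit P (V k) :=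
          mul_le_mul_of_nonneg_left ih (by linarith)
      _ ≤ _ := key

end Weights

end R307.EM
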