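import Mathlib

/-!
Definitions for the statement on the L_1 distortion of uniform measures on s-point subsets of
the grid.
-/

namespace R307.EM

open MeasureTheory

/-- Points of the grid `{1, …, Δ}^d`; the element `k` of `Fin Δ` stands for the integer `k + 1`
(only differences of coordinates are used). -/
abbrev Grid (Δ d : ℕ) : Type := Fin d → Fin Δ

/-- The `ℓ_1` metric on the grid. -/
noncomputable def dist1 {Δ d : ℕ} (x y : Grid Δ d) : ℝ :=
  ∑ i, |((x i : ℕ) : ℝ) - ((y i : ℕ) : ℝ)|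

/-- The `ℓ_2` metric on the grid. -/
noncomputable def dist2 {Δ d : ℕ} (x y : Grid Δ d) : ℝ :=
  Real.sqrt (∑ i, (((x i : ℕ) : ℝ) - ((y i : ℕ) : ℝ)) ^ 2)

/-- `π` is a coupling of the weight functions `μ` and `ν` on a finite set. -/
def IsCoupling {M : Type*} [Fintype M] (μ ν : M → ℝ) (π : M → M → ℝ) : Prop :=
  (∀ x y, 0 ≤ π x y) ∧ (∀ x, ∑ y, π x y = μ x) ∧ (∀ y, ∑ x, π x y = ν y)

/-- Wasserstein-1 distance of `μ` and `ν` for the metric `ρ`. -/
noncomputable def W1 {M : Type*} [Fintype M] (ρ : M → M → ℝ) (μ ν : M → ℝ) : ℝ :=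
  sInf {c : ℝ | ∃ π : M → M → ℝ, IsCoupling μ ν π ∧ c = ∑ x, ∑ y, π x y * ρ x y}

open Classical in
/-- The uniform probability measure on the finite set `S`, as a weight function. -/
noncomputable def unif {M : Type*} (S : Finset M) : M → ℝ :=
  fun x => if x ∈ S then 1 / (S.card : ℝ) else 0

/-- The `s`-point subsets of the grid; they index the measures of `Y(Δ, d, s)`. -/
abbrev YSet (Δ d s : ℕ) : Type := {S : Finset (Grid Δ d) // S.card = s}

/-- The metric of `Y(Δ, d, s)`: the Wasserstein-1 distance of the uniform measures. -/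
noncomputable def distY {Δ d : ℕ} (s : ℕ) (ρ : Grid Δ d → Grid Δ d → ℝ) (S T : YSet Δ d s) : ℝ :=
  W1 ρ (unif S.1) (unif T.1)

/-- `X` with the distance function `ρ` embeds into `L_1` (of the real line) with distortion at
most `D`. -/
def EmbedsL1 {X : Type*} (ρ : X → X → ℝ) (D : ℝ) : Prop :=
  ∃ (f : X → Lp ℝ 1 (volume : Measure ℝ)) (r : ℝ), 0 < r ∧
    ∀ x y, r * ρ x y ≤ ‖f x - f y‖ ∧ ‖f x - f y‖ ≤ D * r * ρ x y

/-- The distortion `c_1`. -/
noncomputable def c1 {X : Type*} (ρ : X → X → ℝ) : ℝ := sInf {D : ℝ | 1 ≤ D ∧ EmbedsL1 ρ D}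

end R307.EM
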