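import Mathlib

namespace R307.EM

open Finset

/-- The part of `[0, 2t]` between `2^j` and `2^(j+1)`. -/
noncomputable def bb (j : ℕ) (t : ℝ) : ℝ := min (2 * t) (2 ^ (j + 1)) - min (2 * t) (2 ^ j)

lemma bb_mono (j : ℕ) {t u : ℝ} (h : t ≤ u) : bb j t ≤ bb j u := by
  unfold bb
  have h2 : (2 : ℝ) ^ j ≤ 2 ^ (j + 1) := pow_le_pow_right₀ (by norm_num) (by omega)
  rcases le_total (2 * t) (2 ^ j) with h3 | h3 <;> rcases le_total (2 * u) (2 ^ j) with h4 | h4 <;>
  rcases le_total (2 * t) (2 ^ (j + 1)) with h5 | h5 <;>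
  rcases le_total (2 * u) (2 ^ (j + 1)) with h6 | h6 <;>
  simp only [min_eq_left, min_eq_right, h3, h4, h5, h6] <;> linarith

lemma bb_nonneg (j : ℕ) (t : ℝ) : 0 ≤ bb j t := by
  unfold bb
  have h2 : (2 : ℝ) ^ j ≤ 2 ^ (j + 1) := pow_le_pow_right₀ (by norm_num) (by omega)
  have : min (2 * t) ((2 : ℝ) ^ j) ≤ min (2 * t) (2 ^ (j + 1)) := min_le_min le_rfl h2
  linarith

lemma bb_le (j : ℕ) (t : ℝ) : bb j t ≤ 2 ^ j := by
  unfold bb
  have h2 : (2 : ℝ) ^ (j + 1) = 2 * 2 ^ j := by ring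
  have h0 : (0 : ℝ) < 2 ^ j := by positivity
  rcases le_total (2 * t) (2 ^ j) with h3 | h3
  · rw [min_eq_left h3, min_eq_left (by rw [h2]; linarith)]; linarith
  · rw [min_eq_right h3]
    have := min_le_right (2 * t) ((2 : ℝ) ^ (j + 1))
    linarith

lemma sum_bb (J m : ℕ) (t : ℝ) :
    ∑ j ∈ range J, bb (j + m) t = min (2 * t) (2 ^ (J + m)) - min (2 * t) (2 ^ m) := by
  induction J with
  | zero => simp
  | succ J ih =>
    rw [Finset.sum_range_succ, ih]
    unfold bb
    have : J + 1 + m = J + m + 1 := by ring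
    rw [this]; ring

lemma sum_bb_diff (J m : ℕ) (t u : ℝ) :
    ∑ j ∈ range J, |bb (j + m) t - bb (j + m) u| ≤ 2 * |t - u| := by
  wlog h : u ≤ t generalizing t u
  · have := this u t (le_of_lt (not_le.1 h))
    simp_rw [abs_sub_comm] at this ⊢
    calc _ = ∑ j ∈ range J, |bb (j + m) u - bb (j + m) t| := by
            refine Finset.sum_congr rfl (fun j _ => abs_sub_comm _ _)
      _ ≤ 2 * |u - t| := by
            simpa [abs_sub_comm] using this
      _ = _ := by rw [abs_sub_comm]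
  · have e : ∀ j ∈ range J, |bb (j + m) t - bb (j + m) u| = bb (j + m) t - bb (j + m) u :=
      fun j _ => abs_of_nonneg (by linarith [bb_mono (j + m) h])
    rw [Finset.sum_congr rfl e, Finset.sum_sub_distrib, sum_bb, sum_bb]
    rw [abs_of_nonneg (by linarith : 0 ≤ t - u)]
    have h1 : min (2 * t) ((2 : ℝ) ^ (J + m)) - min (2 * u) (2 ^ (J + m)) ≤ 2 * (t - u) := by
      rcases le_total (2 * u) (2 ^ (J + m)) with h4 | h4
      · rw [min_eq_left h4]
        have := min_le_left (2 * t) ((2 : ℝ) ^ (J + m))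
        linarith
      · rw [min_eq_right h4]
        have := min_le_right (2 * t) ((2 : ℝ) ^ (J + m))
        linarith
    have h2 : min (2 * u) ((2 : ℝ) ^ m) ≤ min (2 * t) (2 ^ m) :=
      min_le_min (by linarith) le_rfl
    linarith

/-- The cut function of scale `2^j` with window `m`, times `2^j`. -/
noncomputable def tent (m j : ℕ) (t : ℝ) : ℝ := bb j t - bb (j + m) t / 2 ^ m

lemma tent_nonneg {m : ℕ} (hm : 1 ≤ m) (j : ℕ) (t : ℝ) : 0 ≤ tent m j t := by
  unfold tent
  have e2 : (2 : ℝ) ^ (j + m) = 2 ^ m * 2 ^ j := by rw [pow_add]; ring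
  have e1 : (2 : ℝ) ^ (j + 1) = 2 * 2 ^ j := by ring
  have h0 : (0 : ℝ) < 2 ^ j := by positivity
  have hm0 : (0 : ℝ) < 2 ^ m := by positivity
  rcases le_total (2 * t) (2 ^ (j + m)) with h | h
  · have h3 : (2 : ℝ) ^ (j + m) ≤ 2 ^ (j + m + 1) := pow_le_pow_right₀ (by norm_num) (by omega)
    have : bb (j + m) t = 0 := by
      unfold bb
      rw [min_eq_left h, min_eq_left (h.trans h3)]; ring
    rw [this]
    have := bb_nonneg j t
    simpa using this
  · have h3 : (2 : ℝ) ^ (j + 1) ≤ 2 ^ (j + m) := pow_le_pow_right₀ (by norm_num) (by omega)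
    have h1 : bb j t = 2 ^ j := by
      unfold bb
      rw [min_eq_right (h3.trans h), min_eq_right (by rw [e1] at h3; linarith), e1]; ring
    have h2 := bb_le (j + m) t
    rw [h1, sub_nonneg, div_le_iff₀ hm0]
    rw [e2] at h2
    linarith

lemma tent_eq (m j : ℕ) {t : ℝ} (h1 : (2 : ℝ) ^ j ≤ t) (h2 : 2 * t ≤ 2 ^ (j + m)) :
    tent m j t = 2 ^ j := by
  unfold tent bb
  have e1 : (2 : ℝ) ^ (j + 1) = 2 * 2 ^ j := by ring
  have h0 : (0 : ℝ) < 2 ^ j := by positivity
  have h3 : (2 : ℝ) ^ (j + m) ≤ 2 ^ (j + m + 1) := pow_le_pow_right₀ (by norm_num) (by omega)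
  rw [min_eq_right (by rw [e1]; linarith), min_eq_right (by linarith),
    min_eq_left (h2.trans h3), min_eq_left h2, e1]
  ring

lemma sum_tent_diff (J m : ℕ) (t u : ℝ) :
    ∑ j ∈ range J, |tent m j t - tent m j u| ≤ 4 * |t - u| := by
  have h1 := sum_bb_diff J 0 t u
  have h2 := sum_bb_diff J m t u
  have h3 : ∑ j ∈ range J, |tent m j t - tent m j u|
      ≤ ∑ j ∈ range J, (|bb (j + 0) t - bb (j + 0) u| + |bb (j + m) t - bb (j + m) u|) := by
    apply Finset.sum_le_sum
    intro j _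
    have : tent m j t - tent m j u
        = (bb (j + 0) t - bb (j + 0) u) - (bb (j + m) t - bb (j + m) u) / 2 ^ m := by
      unfold tent; simp only [add_zero]; ring
    rw [this]
    refine (abs_sub _ _).trans ?_
    have hm0 : (1 : ℝ) ≤ 2 ^ m := one_le_pow₀ (by norm_num)
    rw [abs_div, abs_of_pos (by positivity : (0 : ℝ) < 2 ^ m)]
    have := div_le_self (abs_nonneg (bb (j + m) t - bb (j + m) u)) hm0
    linarith
  rw [Finset.sum_add_distrib] at h3
  linarith

lemma sum_tent_div (J m : ℕ) (t : ℝ) : ∑ j ∈ range J, tent m j t / 2 ^ j ≤ m := by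
  set c : ℕ → ℝ := fun j => bb j t / 2 ^ j with hc
  have c0 : ∀ j, 0 ≤ c j := fun j => div_nonneg (bb_nonneg _ _) (by positivity)
  have c1 : ∀ j, c j ≤ 1 := fun j => by
    simp only [hc]
    rw [div_le_one (by positivity)]; exact bb_le j t
  have e : ∀ j, tent m j t / 2 ^ j = c j - c (j + m) := by
    intro j
    simp only [hc, tent]
    rw [pow_add]
    field_simp
  have key : ∀ J : ℕ, ∑ j ∈ range J, tent m j t / 2 ^ j
      = ∑ j ∈ range m, c j - ∑ j ∈ range m, c (J + j) := by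
    intro J
    induction J with
    | zero => simp
    | succ J ih =>
      rw [Finset.sum_range_succ, ih, e]
      have h1 : ∑ j ∈ range (m + 1), c (J + j) = ∑ j ∈ range m, c (J + j) + c (J + m) :=
        Finset.sum_range_succ _ _
      have h2 : ∑ j ∈ range (m + 1), c (J + j) = ∑ j ∈ range m, c (J + (j + 1)) + c (J + 0) :=
        Finset.sum_range_succ' _ _
      have h3 : ∑ j ∈ range m, c (J + 1 + j) = ∑ j ∈ range m, c (J + (j + 1)) :=
        Finset.sum_congr rfl (fun j _ => by congr 1; ring)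
      rw [h3]
      simp only [add_zero] at h2
      linarith
  rw [key]
  have h3 : 0 ≤ ∑ j ∈ range m, c (J + j) := Finset.sum_nonneg (fun j _ => c0 _)
  have h4 : ∑ j ∈ range m, c j ≤ ∑ _j ∈ range m, (1 : ℝ) := Finset.sum_le_sum (fun j _ => c1 j)
  simp only [Finset.sum_const, Finset.card_range, nsmul_eq_mul, mul_one] at h4
  linarith

end R307.EM
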