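import Pool.Agent.R307.EM.Mult
import Pool.Agent.R307.EM.Scale

set_option linter.unusedSectionVars false

namespace R307.EM

open Finset

section Embed

variable {α : Type*} [Fintype α] [DecidableEq α] {s : ℕ}

/-- Matching cost for the identity matching. -/
noncomputable def cost (p q : Fin s → Finset α) : ℝ := ∑ i, hd (p i) (q i)

lemma cost_nonneg (p q : Fin s → Finset α) : 0 ≤ cost p q :=
  Finset.sum_nonneg (fun _ _ => hd_nonneg _ _)

noncomputable def TT (m j : ℕ) (p : Fin s → Finset α) : ℝ := ∑ i, ∑ k, tent m j (hd (p i) (p k))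

lemma TT_nonneg {m : ℕ} (hm : 1 ≤ m) (j : ℕ) (p : Fin s → Finset α) : 0 ≤ TT m j p :=
  Finset.sum_nonneg (fun i _ => Finset.sum_nonneg (fun k _ => tent_nonneg hm _ _))

noncomputable def coordF (m j : ℕ) (p : Fin s → Finset α) (P Z : Finset α) : ℝ :=
  TT m j p * (wt ((2 ^ j : ℝ)⁻¹) P * mult p P Z)

noncomputable def EE (m j : ℕ) (p q : Fin s → Finset α) : ℝ :=
  ∑ P : Finset α, ∑ Z : Finset α, |coordF m j p P Z - coordF m j q P Z|

noncomputable def coordL (p : Fin s → Finset α) (c : α) : ℝ := ∑ i, if c ∈ p i then (1 : ℝ) else 0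

noncomputable def LL (p q : Fin s → Finset α) : ℝ := ∑ c, |coordL p c - coordL q c|

noncomputable def NN (m : ℕ) (p q : Fin s → Finset α) : ℝ :=
  LL p q + ∑ j ∈ range (Fintype.card α), EE m j p q

lemma EE_nonneg (m j : ℕ) (p q : Fin s → Finset α) : 0 ≤ EE m j p q :=
  Finset.sum_nonneg (fun i _ => Finset.sum_nonneg (fun k _ => abs_nonneg _))

lemma LL_nonneg (p q : Fin s → Finset α) : 0 ≤ LL p q :=
  Finset.sum_nonneg (fun i _ => abs_nonneg _)

lemma EE_comm (m j : ℕ) (p q : Fin s → Finset α) : EE m j p q = EE m j q p := by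
  unfold EE
  exact Finset.sum_congr rfl (fun _ _ => Finset.sum_congr rfl (fun _ _ => abs_sub_comm _ _))

lemma LL_comm (p q : Fin s → Finset α) : LL p q = LL q p := by
  unfold LL
  exact Finset.sum_congr rfl (fun _ _ => abs_sub_comm _ _)

lemma NN_comm (m : ℕ) (p q : Fin s → Finset α) : NN m p q = NN m q p := by
  unfold NN
  rw [LL_comm]
  congr 1
  exact Finset.sum_congr rfl (fun _ _ => EE_comm _ _ _ _)

lemma ind_abs_sum (A B : Finset α) :
    ∑ c, |(if c ∈ A then (1 : ℝ) else 0) - (if c ∈ B then (1 : ℝ) else 0)| = hd A B := by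
  unfold hd
  rw [Finset.card_eq_sum_ones, Nat.cast_sum]
  rw [← Finset.sum_filter_add_sum_filter_not univ (fun c => c ∈ symmDiff A B)]
  have e1 : univ.filter (fun c => c ∈ symmDiff A B) = symmDiff A B := by
    ext c; simp
  rw [e1]
  have e2 : ∑ c ∈ univ.filter (fun c => ¬ c ∈ symmDiff A B),
      |(if c ∈ A then (1 : ℝ) else 0) - (if c ∈ B then (1 : ℝ) else 0)| = 0 := by
    apply Finset.sum_eq_zero
    intro c hc
    rw [Finset.mem_filter, Finset.mem_symmDiff] at hc
    have h := hc.2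
    by_cases hA : c ∈ A <;> by_cases hB : c ∈ B <;> simp_all
  rw [e2, add_zero]
  apply Finset.sum_congr rfl
  intro c hc
  rw [Finset.mem_symmDiff] at hc
  rcases hc with ⟨hA, hB⟩ | ⟨hB, hA⟩ <;> simp [hA, hB]

lemma LL_upper (p q : Fin s → Finset α) : LL p q ≤ cost p q := by
  unfold LL cost
  calc ∑ c, |coordL p c - coordL q c|
      ≤ ∑ c, ∑ i, |(if c ∈ p i then (1 : ℝ) else 0) - (if c ∈ q i then (1 : ℝ) else 0)| := by
        apply Finset.sum_le_sum
        intro c _
        unfold coordL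
        rw [← Finset.sum_sub_distrib]
        exact Finset.abs_sum_le_sum_abs _ _
    _ = ∑ i, ∑ c, |(if c ∈ p i then (1 : ℝ) else 0) - (if c ∈ q i then (1 : ℝ) else 0)| :=
        Finset.sum_comm
    _ = _ := Finset.sum_congr rfl (fun i _ => ind_abs_sum _ _)

lemma inv_pow_mem (j : ℕ) : 0 ≤ ((2 : ℝ) ^ j)⁻¹ ∧ ((2 : ℝ) ^ j)⁻¹ ≤ 1 := by
  constructor
  · positivity
  · exact inv_le_one_of_one_le₀ (one_le_pow₀ (by norm_num))

lemma sum_wt_mult (x : ℝ) (p : Fin s → Finset α) :
    ∑ P : Finset α, ∑ Z : Finset α, wt x P * mult p P Z = s := by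
  simp_rw [← Finset.mul_sum, sum_mult, ← Finset.sum_mul, sum_wt, one_mul]

lemma sum_coordF (m j : ℕ) (p : Fin s → Finset α) :
    ∑ P : Finset α, ∑ Z : Finset α, coordF m j p P Z = TT m j p * s := by
  unfold coordF
  simp_rw [← Finset.mul_sum]
  congr 1
  simp_rw [Finset.mul_sum]
  exact sum_wt_mult _ p

lemma EE_upper {m : ℕ} (hm : 1 ≤ m) (j : ℕ) (p q : Fin s → Finset α) :
    EE m j p q ≤ |TT m j p - TT m j q| * s + TT m j p * (2 * ((2 : ℝ) ^ j)⁻¹ * cost p q) := by
  obtain ⟨h0, h1⟩ := inv_pow_mem j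
  set x := ((2 : ℝ) ^ j)⁻¹ with hx
  have hG := G_upper h0 h1 p q
  have hT := TT_nonneg hm j p
  have step : ∀ P Z : Finset α, |coordF m j p P Z - coordF m j q P Z|
      ≤ |TT m j p - TT m j q| * (wt x P * mult q P Z)
        + TT m j p * (wt x P * |mult p P Z - mult q P Z|) := by
    intro P Z
    have e : coordF m j p P Z - coordF m j q P Z
        = (TT m j p - TT m j q) * (wt x P * mult q P Z)
          + TT m j p * (wt x P * (mult p P Z - mult q P Z)) := by
      unfold coordF; ring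
    rw [e]
    refine (abs_add_le _ _).trans ?_
    have hw := wt_nonneg h0 h1 P
    have hm := mult_nonneg q P Z
    rw [abs_mul (TT m j p - TT m j q), abs_of_nonneg (mul_nonneg hw hm), abs_mul (TT m j p),
      abs_of_nonneg hT, abs_mul (wt x P), abs_of_nonneg hw]
  have h2 : EE m j p q ≤ ∑ P : Finset α, ∑ Z : Finset α,
      (|TT m j p - TT m j q| * (wt x P * mult q P Z)
        + TT m j p * (wt x P * |mult p P Z - mult q P Z|)) :=
    Finset.sum_le_sum (fun P _ => Finset.sum_le_sum (fun Z _ => step P Z))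
  simp_rw [Finset.sum_add_distrib, ← Finset.mul_sum] at h2
  have e3 : ∑ P : Finset α, wt x P * ∑ Z : Finset α, mult q P Z = s := by
    simp_rw [Finset.mul_sum]; exact sum_wt_mult _ q
  rw [e3] at h2
  have e4 : ∑ P : Finset α, wt x P * ∑ Z : Finset α, |mult p P Z - mult q P Z| = G x p q := rfl
  rw [e4] at h2
  have : TT m j p * G x p q ≤ TT m j p * (2 * x * cost p q) :=
    mul_le_mul_of_nonneg_left hG hT
  linarith

lemma EE_lower {m : ℕ} (hm : 1 ≤ m) (j : ℕ) (p q : Fin s → Finset α) :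
    TT m j p * G (((2 : ℝ) ^ j)⁻¹) p q ≤ 2 * EE m j p q := by
  obtain ⟨h0, h1⟩ := inv_pow_mem j
  set x := ((2 : ℝ) ^ j)⁻¹ with hx
  have hT := TT_nonneg hm j p
  have step : ∀ P Z : Finset α, TT m j p * (wt x P * |mult p P Z - mult q P Z|)
      ≤ |coordF m j p P Z - coordF m j q P Z| + |TT m j p - TT m j q| * (wt x P * mult q P Z) := by
    intro P Z
    have hw := wt_nonneg h0 h1 P
    have hm := mult_nonneg q P Z
    have e : TT m j p * (wt x P * |mult p P Z - mult q P Z|)
        = |TT m j p * (wt x P * (mult p P Z - mult q P Z))| := by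
      rw [abs_mul, abs_mul, abs_of_nonneg hT, abs_of_nonneg hw]
    have e2 : TT m j p * (wt x P * (mult p P Z - mult q P Z))
        = (coordF m j p P Z - coordF m j q P Z) - (TT m j p - TT m j q) * (wt x P * mult q P Z) := by
      unfold coordF; ring
    rw [e, e2]
    refine (abs_sub _ _).trans ?_
    rw [abs_mul (TT m j p - TT m j q), abs_of_nonneg (mul_nonneg hw hm)]
  have h2 : ∑ P : Finset α, ∑ Z : Finset α, TT m j p * (wt x P * |mult p P Z - mult q P Z|)
      ≤ ∑ P : Finset α, ∑ Z : Finset α, (|coordF m j p P Z - coordF m j q P Z|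
        + |TT m j p - TT m j q| * (wt x P * mult q P Z)) :=
    Finset.sum_le_sum (fun P _ => Finset.sum_le_sum (fun Z _ => step P Z))
  simp_rw [Finset.sum_add_distrib, ← Finset.mul_sum] at h2
  have e3 : ∑ P : Finset α, wt x P * ∑ Z : Finset α, mult q P Z = s := by
    simp_rw [Finset.mul_sum]; exact sum_wt_mult _ q
  rw [e3] at h2
  have e4 : ∑ P : Finset α, wt x P * ∑ Z : Finset α, |mult p P Z - mult q P Z| = G x p q := rfl
  rw [e4] at h2
  have h5 : |TT m j p - TT m j q| * s ≤ EE m j p q := by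
    have e5 : ∑ P : Finset α, ∑ Z : Finset α, (coordF m j p P Z - coordF m j q P Z)
        = (TT m j p - TT m j q) * s := by
      simp_rw [Finset.sum_sub_distrib]
      rw [sum_coordF, sum_coordF]; ring
    have e6 : |TT m j p - TT m j q| * (s : ℝ) = |(TT m j p - TT m j q) * s| := by
      rw [abs_mul, abs_of_nonneg (by positivity : (0 : ℝ) ≤ (s : ℝ))]
    rw [e6, ← e5]
    refine (Finset.abs_sum_le_sum_abs _ _).trans ?_
    exact Finset.sum_le_sum (fun P _ => Finset.abs_sum_le_sum_abs _ _)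
  have h6 : ∑ P : Finset α, ∑ Z : Finset α, |coordF m j p P Z - coordF m j q P Z| = EE m j p q := rfl
  rw [h6] at h2
  linarith

lemma hd_diff (A B C D : Finset α) : |hd A B - hd C D| ≤ hd A C + hd B D := by
  have h1 := hd_triangle A C B
  have h2 := hd_triangle C D B
  have h3 := hd_triangle C A D
  have h4 := hd_triangle A B D
  have h5 := hd_comm A C
  have h6 := hd_comm B D
  rw [abs_le]
  constructor <;> linarith

lemma TT_diff (m J : ℕ) (p q : Fin s → Finset α) :
    ∑ j ∈ range J, |TT m j p - TT m j q| ≤ 8 * s * cost p q := by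
  calc ∑ j ∈ range J, |TT m j p - TT m j q|
      ≤ ∑ j ∈ range J, ∑ i, ∑ k, |tent m j (hd (p i) (p k)) - tent m j (hd (q i) (q k))| := by
        apply Finset.sum_le_sum
        intro j _
        unfold TT
        rw [← Finset.sum_sub_distrib]
        refine (Finset.abs_sum_le_sum_abs _ _).trans ?_
        apply Finset.sum_le_sum
        intro i _
        rw [← Finset.sum_sub_distrib]
        exact Finset.abs_sum_le_sum_abs _ _
    _ = ∑ i, ∑ k, ∑ j ∈ range J, |tent m j (hd (p i) (p k)) - tent m j (hd (q i) (q k))| := by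
        rw [Finset.sum_comm]
        refine Finset.sum_congr rfl (fun i _ => ?_)
        rw [Finset.sum_comm]
    _ ≤ ∑ i, ∑ k, 4 * (hd (p i) (q i) + hd (p k) (q k)) := by
        apply Finset.sum_le_sum
        intro i _
        apply Finset.sum_le_sum
        intro k _
        refine (sum_tent_diff J m _ _).trans ?_
        have := hd_diff (p i) (p k) (q i) (q k)
        linarith
    _ = 8 * s * cost p q := by
        unfold cost
        simp_rw [← Finset.mul_sum, Finset.sum_add_distrib]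
        simp only [Finset.sum_const, Finset.card_univ, Fintype.card_fin, nsmul_eq_mul]
        rw [← Finset.mul_sum]
        ring

lemma TT_sum_div (m J : ℕ) (p : Fin s → Finset α) :
    ∑ j ∈ range J, TT m j p * ((2 : ℝ) ^ j)⁻¹ ≤ m * s ^ 2 := by
  calc ∑ j ∈ range J, TT m j p * ((2 : ℝ) ^ j)⁻¹
      = ∑ j ∈ range J, ∑ i, ∑ k, tent m j (hd (p i) (p k)) / 2 ^ j := by
        refine Finset.sum_congr rfl (fun j _ => ?_)
        unfold TT
        simp_rw [Finset.sum_mul, div_eq_mul_inv]
    _ = ∑ i, ∑ k, ∑ j ∈ range J, tent m j (hd (p i) (p k)) / 2 ^ j := by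
        rw [Finset.sum_comm]
        refine Finset.sum_congr rfl (fun i _ => ?_)
        rw [Finset.sum_comm]
    _ ≤ ∑ i : Fin s, ∑ k : Fin s, (m : ℝ) :=
        Finset.sum_le_sum (fun i _ => Finset.sum_le_sum (fun k _ => sum_tent_div _ _ _))
    _ = m * s ^ 2 := by simp; ring

theorem NN_upper {m : ℕ} (hm : 1 ≤ m) (p q : Fin s → Finset α) :
    NN m p q ≤ (1 + 8 * s ^ 2 + 2 * m * s ^ 2) * cost p q := by
  unfold NN
  have h1 := LL_upper p q
  have h2 : ∑ j ∈ range (Fintype.card α), EE m j p q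
      ≤ ∑ j ∈ range (Fintype.card α), (|TT m j p - TT m j q| * s
        + TT m j p * (2 * ((2 : ℝ) ^ j)⁻¹ * cost p q)) :=
    Finset.sum_le_sum (fun j _ => EE_upper hm j p q)
  rw [Finset.sum_add_distrib, ← Finset.sum_mul] at h2
  have e : ∑ j ∈ range (Fintype.card α), TT m j p * (2 * ((2 : ℝ) ^ j)⁻¹ * cost p q)
      = (∑ j ∈ range (Fintype.card α), TT m j p * ((2 : ℝ) ^ j)⁻¹) * (2 * cost p q) := by
    rw [Finset.sum_mul]
    exact Finset.sum_congr rfl (fun j _ => by ring)
  rw [e] at h2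
  have h3 := TT_diff m (Fintype.card α) p q
  have h4 := TT_sum_div m (Fintype.card α) p
  have hc := cost_nonneg p q
  have hs : (0 : ℝ) ≤ s := by positivity
  have h5 := mul_le_mul_of_nonneg_right h3 hs
  have h6 := mul_le_mul_of_nonneg_right h4 (by linarith : 0 ≤ 2 * cost p q)
  linarith

end Embed

end R307.EM
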