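import Pool.Agent.R307.EM.Embed

set_option linter.unusedSectionVars false

namespace R307.EM

open Finset

section Lower

variable {α : Type*} [Fintype α] [DecidableEq α] {s : ℕ}

lemma factor_lower {x y : ℝ} (h0 : 0 ≤ x) (h1 : x ≤ 1) (hy : 0 ≤ y) (n : ℕ) (h : y ≤ n * x) :
    y / (1 + y) ≤ 1 - (1 - x) ^ n := by
  have h2 : (1 - x) ^ n * (1 + n * x) ≤ 1 := by
    have hb : 1 + (n : ℝ) * x ≤ (1 + x) ^ n := one_add_mul_le_pow (by linarith) n
    have hp : 0 ≤ (1 - x) ^ n := pow_nonneg (by linarith) n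
    calc (1 - x) ^ n * (1 + n * x) ≤ (1 - x) ^ n * (1 + x) ^ n :=
          mul_le_mul_of_nonneg_left hb hp
      _ = ((1 - x) * (1 + x)) ^ n := by rw [mul_pow]
      _ ≤ 1 := pow_le_one₀ (by nlinarith) (by nlinarith)
  have hp : 0 ≤ (1 - x) ^ n := pow_nonneg (by linarith) n
  have h3 : (1 - x) ^ n * (1 + y) ≤ 1 := by
    refine (mul_le_mul_of_nonneg_left (by linarith) hp).trans h2
  rw [div_le_iff₀ (by linarith)]
  nlinarith

/-- A scale attached to a pair of points: close to the number `ρ`, but at least one. -/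
lemma scale_exists {m : ℕ} (hm : 1 ≤ m) (p : Fin s → Finset α) (i k : Fin s) {ρ K : ℝ}
    (hρ : 0 < ρ) (h : ρ ≤ hd (p i) (p k)) (hK : hd (p i) (p k) ≤ K * ρ) (hKm : 4 * K ≤ 2 ^ m) :
    ∃ j ∈ range (Fintype.card α), (j = 0 ∨ (2 : ℝ) ^ j ≤ ρ) ∧ ρ < 2 * 2 ^ j ∧
      (2 : ℝ) ^ j ≤ TT m j p := by
  set n := (symmDiff (p i) (p k)).card with hn
  have hhd : hd (p i) (p k) = (n : ℝ) := rfl
  have hn0 : 1 ≤ n := by
    by_contra h0
    have h0' : n = 0 := by omega
    rw [hhd, h0'] at h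
    simp at h
    linarith
  have hn1 : (1 : ℝ) ≤ hd (p i) (p k) := by rw [hhd]; exact_mod_cast hn0
  have h3 : n ≤ Fintype.card α := hd_le_card _ _
  set j := Nat.log 2 ⌊ρ⌋₊ with hj
  have hfl : (⌊ρ⌋₊ : ℝ) ≤ ρ := Nat.floor_le hρ.le
  have hfl2 : ρ < (⌊ρ⌋₊ : ℝ) + 1 := Nat.lt_floor_add_one ρ
  have e2 : ρ < 2 * 2 ^ j := by
    have h2 : ⌊ρ⌋₊ < 2 ^ (j + 1) := Nat.lt_pow_succ_log_self (by norm_num) _
    have h5 : ⌊ρ⌋₊ + 1 ≤ 2 ^ (j + 1) := h2
    have h6 : ((⌊ρ⌋₊ : ℝ) + 1) ≤ 2 ^ (j + 1) := by exact_mod_cast h5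
    have h7 : (2 : ℝ) ^ (j + 1) = 2 * 2 ^ j := by ring
    linarith
  have e1 : j = 0 ∨ (2 : ℝ) ^ j ≤ ρ := by
    by_cases h0 : ⌊ρ⌋₊ = 0
    · left
      rw [hj, h0]; simp
    · right
      have h1 : 2 ^ j ≤ ⌊ρ⌋₊ := Nat.pow_log_le_self 2 h0
      have h2 : (2 : ℝ) ^ j ≤ (⌊ρ⌋₊ : ℝ) := by exact_mod_cast h1
      linarith
  have e3 : (2 : ℝ) ^ j ≤ hd (p i) (p k) := by
    rcases e1 with e1 | e1
    · rw [e1]; simpa using hn1
    · linarith
  have h4 : j < 2 ^ j := Nat.lt_two_pow_self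
  have h8 : 2 ^ j ≤ n := by
    rw [hhd] at e3
    exact_mod_cast e3
  refine ⟨j, Finset.mem_range.2 (by omega), e1, e2, ?_⟩
  have hpj : (0 : ℝ) < 2 ^ j := by positivity
  have hKpos : 0 < K := by
    by_contra hneg
    push Not at hneg
    nlinarith
  have e4 : 2 * hd (p i) (p k) ≤ 2 ^ (j + m) := by
    rw [pow_add]
    calc 2 * hd (p i) (p k) ≤ 2 * (K * ρ) := by linarith
      _ ≤ 2 * (K * (2 * 2 ^ j)) := by
          have := mul_le_mul_of_nonneg_left e2.le hKpos.le
          linarith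
      _ = 2 ^ j * (4 * K) := by ring
      _ ≤ 2 ^ j * 2 ^ m := mul_le_mul_of_nonneg_left hKm hpj.le
  unfold TT
  rw [← tent_eq m j e3 e4]
  refine le_trans ?_ (Finset.single_le_sum (f := fun i => ∑ k, tent m j (hd (p i) (p k)))
    (fun i _ => Finset.sum_nonneg (fun k _ => tent_nonneg hm _ _)) (Finset.mem_univ i))
  exact Finset.single_le_sum (f := fun k => tent m j (hd (p i) (p k)))
    (fun k _ => tent_nonneg hm _ _) (Finset.mem_univ k)

lemma EE_le_NN (m : ℕ) (p q : Fin s → Finset α) {j : ℕ} (hj : j ∈ range (Fintype.card α)) :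
    EE m j p q ≤ NN m p q := by
  unfold NN
  have := Finset.single_le_sum (f := fun j => EE m j p q) (fun j _ => EE_nonneg m j p q) hj
  have h2 := LL_nonneg p q
  linarith

lemma G_nonneg {x : ℝ} (h0 : 0 ≤ x) (h1 : x ≤ 1) (p q : Fin s → Finset α) : 0 ≤ G x p q :=
  Finset.sum_nonneg (fun P _ => mul_nonneg (wt_nonneg h0 h1 P)
    (Finset.sum_nonneg (fun _ _ => abs_nonneg _)))

lemma NN_scale {m : ℕ} (hm : 1 ≤ m) (p q : Fin s → Finset α) {j : ℕ} (hj : j ∈ range (Fintype.card α))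
    (hT : (2 : ℝ) ^ j ≤ TT m j p) :
    (2 : ℝ) ^ j * G (((2 : ℝ) ^ j)⁻¹) p q ≤ 2 * NN m p q := by
  obtain ⟨h0, h1⟩ := inv_pow_mem j
  have h2 := EE_lower hm j p q
  have h3 := EE_le_NN m p q hj
  have h4 := mul_le_mul_of_nonneg_right hT (G_nonneg h0 h1 p q)
  linarith

/-- A product of factors close to one. -/
lemma prod_half {κ : Type*} (T : Finset κ) (f : κ → ℝ) {N : ℕ} (hT : T.card ≤ N)
    (hf : ∀ k ∈ T, (2 * N : ℝ) / (1 + 2 * N) ≤ f k) : (1 : ℝ) / 2 ≤ ∏ k ∈ T, f k := by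
  have hN : (0 : ℝ) ≤ N := by positivity
  have h0 : (0 : ℝ) ≤ (2 * N : ℝ) / (1 + 2 * N) := by positivity
  have h1 : (2 * N : ℝ) / (1 + 2 * N) ≤ 1 := by
    rw [div_le_one (by positivity)]; linarith
  have h2 : (1 : ℝ) / 2 ≤ ((2 * N : ℝ) / (1 + 2 * N)) ^ N := by
    have hb := one_add_mul_le_pow (a := -(1 / (1 + 2 * (N : ℝ)))) (by
      have : 1 / (1 + 2 * (N : ℝ)) ≤ 1 := by
        rw [div_le_one (by positivity)]; linarith
      linarith) N
    have e : (2 * N : ℝ) / (1 + 2 * N) = 1 + -(1 / (1 + 2 * (N : ℝ))) := by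
      field_simp
      ring
    rw [e]
    refine le_trans ?_ hb
    have : (N : ℝ) * (1 / (1 + 2 * (N : ℝ))) ≤ 1 / 2 := by
      rw [mul_one_div, div_le_div_iff₀ (by positivity) (by norm_num)]
      linarith
    linarith
  calc (1 : ℝ) / 2 ≤ ((2 * N : ℝ) / (1 + 2 * N)) ^ N := h2
    _ ≤ ((2 * N : ℝ) / (1 + 2 * N)) ^ T.card := pow_le_pow_of_le_one h0 h1 hT
    _ = ∏ _k ∈ T, ((2 * N : ℝ) / (1 + 2 * N)) := by rw [Finset.prod_const]
    _ ≤ _ := Finset.prod_le_prod (fun _ _ => h0) hf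

/-- The hitting probability of a set which is large compared with the scale. -/
lemma factor_big {j : ℕ} {ρ y : ℝ} (hy : 0 ≤ y) (n : ℕ) (hn : 0 < n)
    (hj : j = 0 ∨ (2 : ℝ) ^ j ≤ ρ) (h : y * ρ ≤ n) :
    y / (1 + y) ≤ 1 - (1 - ((2 : ℝ) ^ j)⁻¹) ^ n := by
  obtain ⟨x0, x1⟩ := inv_pow_mem j
  rcases hj with hj | hj
  · rw [hj]
    have : (1 - ((2 : ℝ) ^ 0)⁻¹) ^ n = 0 := by
      norm_num
      omega
    rw [this, sub_zero, div_le_one (by linarith)]
    linarith
  · apply factor_lower x0 x1 hy n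
    have hpj : (0 : ℝ) < 2 ^ j := by positivity
    rw [← div_eq_mul_inv, le_div_iff₀ hpj]
    exact (mul_le_mul_of_nonneg_left hj hy).trans h

/-- Some pair distance of `p` is comparable to the matching cost. -/
lemma caseA {m : ℕ} (hm : 1 ≤ m) (hs : 0 < s) (hsm : 24 * (s : ℝ) ^ 3 ≤ 2 ^ m)
    (p q : Fin s → Finset α) {D : ℝ} (hD : 0 < D)
    (hopt : ∀ σ : Equiv.Perm (Fin s), D ≤ ∑ i, hd (p i) (q (σ i)))
    (i k : Fin s) (h1 : 1 / (8 * s ^ 2) * D ≤ hd (p i) (p k)) (h2 : hd (p i) (p k) ≤ 3 * D) :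
    1 / (64 * s ^ 3) * D ≤ NN m p q := by
  classical
  have hs' : (0 : ℝ) < s := by exact_mod_cast hs
  have hs1 : (1 : ℝ) ≤ s := by exact_mod_cast hs
  have hs3 : (1 : ℝ) ≤ (s : ℝ) ^ 3 := one_le_pow₀ hs1
  have hpos : 0 < hd (p i) (p k) := lt_of_lt_of_le (by positivity) h1
  set ρ : ℝ := min (hd (p i) (p k)) (D / (2 * s ^ 3)) with hρdef
  have hρ : 0 < ρ := lt_min hpos (by positivity)
  have hK : hd (p i) (p k) ≤ (6 * (s : ℝ) ^ 3) * ρ := by
    rw [hρdef]
    rcases le_total (hd (p i) (p k)) (D / (2 * s ^ 3)) with h | h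
    · rw [min_eq_left h]
      nlinarith
    · rw [min_eq_right h]
      have : (6 * (s : ℝ) ^ 3) * (D / (2 * s ^ 3)) = 3 * D := by field_simp; norm_num
      linarith
  obtain ⟨j, hj, e1, e2, hT⟩ := scale_exists hm p i k hρ (min_le_left _ _) hK (by linarith)
  obtain ⟨x0, x1⟩ := inv_pow_mem j
  set x := ((2 : ℝ) ^ j)⁻¹ with hx
  have hpj : (0 : ℝ) < 2 ^ j := by positivity
  have key := NN_scale hm p q hj hT
  let T : Finset (Fin s × Fin s) := univ.filter (fun u => D ≤ s * hd (p u.1) (q u.2))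
  have hG : ∏ u ∈ T, (1 - (1 - x) ^ (symmDiff (p u.1) (q u.2)).card) ≤ G x p q := by
    refine G_lower x0 x1 p q T (fun u => symmDiff (p u.1) (q u.2)) ?_
    intro P hP
    by_contra hno
    push Not at hno
    obtain ⟨σ, hσ⟩ := exists_perm_of_mult_eq p q P hno
    have hall : ∀ i, (s : ℝ) * hd (p i) (q (σ i)) < D := by
      intro i
      by_contra hge
      push Not at hge
      have hmem : (i, σ i) ∈ T := Finset.mem_filter.2 ⟨Finset.mem_univ _, hge⟩
      exact hP (i, σ i) hmem (disjoint_of_inter_eq _ _ _ (hσ i))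
    have hsum : ∑ i, (s : ℝ) * hd (p i) (q (σ i)) < ∑ _i : Fin s, D :=
      Finset.sum_lt_sum_of_nonempty ⟨⟨0, hs⟩, Finset.mem_univ _⟩ (fun i _ => hall i)
    rw [← Finset.mul_sum] at hsum
    simp only [Finset.sum_const, Finset.card_univ, Fintype.card_fin, nsmul_eq_mul] at hsum
    have := hopt σ
    have h7 := lt_of_mul_lt_mul_left hsum hs'.le
    linarith
  have hT2 : T.card ≤ s ^ 2 := by
    refine (Finset.card_le_univ _).trans ?_
    simp [sq]
  have hprod : (1 : ℝ) / 2 ≤ ∏ u ∈ T, (1 - (1 - x) ^ (symmDiff (p u.1) (q u.2)).card) := by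
    apply prod_half T _ hT2
    intro u hu
    have hu2 := (Finset.mem_filter.1 hu).2
    have e3 : ((symmDiff (p u.1) (q u.2)).card : ℝ) = hd (p u.1) (q u.2) := rfl
    have hupos : 0 < hd (p u.1) (q u.2) := by
      by_contra hneg
      push Not at hneg
      nlinarith
    apply factor_big (by positivity) _ _ e1
    · rw [e3]
      have : ρ ≤ D / (2 * s ^ 3) := min_le_right _ _
      have h9 : (2 * ((s ^ 2 : ℕ) : ℝ)) * ρ ≤ D / s := by
        push_cast
        calc 2 * (s : ℝ) ^ 2 * ρ ≤ 2 * (s : ℝ) ^ 2 * (D / (2 * s ^ 3)) :=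
              mul_le_mul_of_nonneg_left this (by positivity)
          _ = D / s := by field_simp
      refine h9.trans ?_
      rw [div_le_iff₀ hs']
      linarith
    · have : (0 : ℝ) < ((symmDiff (p u.1) (q u.2)).card : ℝ) := by rw [e3]; exact hupos
      exact_mod_cast this
  have hG2 := hprod.trans hG
  have hρ2 : D / (8 * s ^ 3) ≤ ρ := by
    rw [hρdef]
    apply le_min
    · refine le_trans ?_ h1
      have : D / (8 * s ^ 3) = 1 / (8 * s ^ 2) * D * (1 / s) := by field_simp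
      rw [this]
      have h10 : (1 : ℝ) / s ≤ 1 := by rw [div_le_one hs']; exact hs1
      have h11 : 0 ≤ 1 / (8 * (s : ℝ) ^ 2) * D := by positivity
      nlinarith
    · exact div_le_div_of_nonneg_left hD.le (by positivity) (by linarith)
  have h8 : 2 ^ j * (1 / 2) ≤ 2 ^ j * G x p q := mul_le_mul_of_nonneg_left hG2 hpj.le
  have e5 : D / (8 * (s : ℝ) ^ 3) = 8 * (1 / (64 * s ^ 3) * D) := by field_simp; norm_num
  rw [e5] at hρ2
  linarith

/-- All points of each tuple are in one cluster. -/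
lemma caseB1 (m : ℕ) (p q : Fin s → Finset α) {D η : ℝ}
    (a : Fin s) (ha : D ≤ s * hd (p a) (q a))
    (hp : ∀ k, hd (p k) (p a) ≤ η) (hq : ∀ k, hd (q k) (q a) ≤ η) :
    D - 2 * s * η ≤ NN m p q := by
  have h1 : (s : ℝ) * hd (p a) (q a) - ∑ i, (hd (p i) (p a) + hd (q i) (q a)) ≤ LL p q := by
    unfold LL
    simp_rw [← ind_abs_sum]
    rw [Finset.mul_sum]
    simp_rw [← Finset.sum_add_distrib]
    rw [Finset.sum_comm, ← Finset.sum_sub_distrib]
    apply Finset.sum_le_sum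
    intro c _
    unfold coordL
    set u : Fin s → ℝ := fun i => (if c ∈ p i then (1 : ℝ) else 0) - (if c ∈ q i then 1 else 0)
      with hu
    have e1 : (∑ i, if c ∈ p i then (1 : ℝ) else 0) - ∑ i, (if c ∈ q i then (1 : ℝ) else 0)
        = s * u a + ∑ i, (u i - u a) := by
      rw [Finset.sum_sub_distrib]
      simp only [Finset.sum_const, Finset.card_univ, Fintype.card_fin, nsmul_eq_mul, hu]
      rw [Finset.sum_sub_distrib]
      ring
    rw [e1]
    have e2 : |∑ i, (u i - u a)| ≤ ∑ i, (|(if c ∈ p i then (1 : ℝ) else 0)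
        - (if c ∈ p a then 1 else 0)| + |(if c ∈ q i then (1 : ℝ) else 0)
        - (if c ∈ q a then 1 else 0)|) := by
      refine (Finset.abs_sum_le_sum_abs _ _).trans ?_
      apply Finset.sum_le_sum
      intro i _
      have : u i - u a = ((if c ∈ p i then (1 : ℝ) else 0) - (if c ∈ p a then 1 else 0))
          - ((if c ∈ q i then (1 : ℝ) else 0) - (if c ∈ q a then 1 else 0)) := by
        simp only [hu]; ring
      rw [this]
      exact abs_sub _ _
    have e3 : |(s : ℝ) * u a| = s * |u a| := by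
      rw [abs_mul, abs_of_nonneg (by positivity : (0 : ℝ) ≤ (s : ℝ))]
    have e4 : |(s : ℝ) * u a| ≤ |s * u a + ∑ i, (u i - u a)| + |∑ i, (u i - u a)| := by
      have := abs_sub (s * u a + ∑ i, (u i - u a)) (∑ i, (u i - u a))
      have e5 : (s : ℝ) * u a + ∑ i, (u i - u a) - ∑ i, (u i - u a) = s * u a := by ring
      rw [e5] at this
      exact this
    linarith
  have h2 : ∑ i, (hd (p i) (p a) + hd (q i) (q a)) ≤ ∑ _i : Fin s, (η + η) :=
    Finset.sum_le_sum (fun i _ => add_le_add (hp i) (hq i))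
  simp only [Finset.sum_const, Finset.card_univ, Fintype.card_fin, nsmul_eq_mul] at h2
  have h3 : LL p q ≤ NN m p q := by
    unfold NN
    have := Finset.sum_nonneg (s := range (Fintype.card α)) (f := fun j => EE m j p q)
      (fun j _ => EE_nonneg m j p q)
    linarith
  linarith

/-- There is a point far from the cluster of `a`. -/
lemma caseB2 {m : ℕ} (hm : 1 ≤ m) (hs : 0 < s) (hsm : 24 * (s : ℝ) ^ 3 ≤ 2 ^ m)
    (p q : Fin s → Finset α) {D η : ℝ} (hD : 0 < D)
    (hcost : ∀ k, hd (p k) (q k) ≤ D)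
    (a : Fin s) (ha : D ≤ s * hd (p a) (q a)) (C : Finset (Fin s))
    (hη0 : 0 ≤ η) (hq : ∀ k ∈ C, hd (q k) (q a) ≤ η) (hη : 2 * s ^ 2 * η ≤ D)
    (hfar : ∀ k, k ∉ C → 3 * D < hd (p a) (p k)) (hne : ∃ k, k ∉ C) :
    1 / (24 * s) * D ≤ NN m p q := by
  classical
  have hs' : (0 : ℝ) < s := by exact_mod_cast hs
  have hs1 : (1 : ℝ) ≤ s := by exact_mod_cast hs
  obtain ⟨k0, hk0, hmin⟩ := Finset.exists_min_image (univ.filter (fun k => k ∉ C))
    (fun k => hd (p a) (p k)) (by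
      obtain ⟨k, hk⟩ := hne
      exact ⟨k, Finset.mem_filter.2 ⟨Finset.mem_univ _, hk⟩⟩)
  have hk0' : k0 ∉ C := (Finset.mem_filter.1 hk0).2
  have hR := hfar k0 hk0'
  have hpos : 0 < hd (p a) (p k0) := by linarith
  set R := hd (p a) (p k0) with hRdef
  have hs13 : (s : ℝ) ≤ s ^ 3 := by
    calc (s : ℝ) = s ^ 1 := by ring
      _ ≤ s ^ 3 := pow_le_pow_right₀ hs1 (by norm_num)
  have hρ : 0 < R / (4 * s) := by positivity
  have hρR : R / (4 * s) ≤ R := div_le_self hpos.le (by linarith)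
  have hK : R ≤ (4 * s) * (R / (4 * s)) := le_of_eq (by field_simp)
  obtain ⟨j, hj, e1, e2, hT⟩ := scale_exists hm p a k0 hρ hρR hK (by linarith)
  obtain ⟨x0, x1⟩ := inv_pow_mem j
  set x := ((2 : ℝ) ^ j)⁻¹ with hx
  have hpj : (0 : ℝ) < 2 ^ j := by positivity
  have key := NN_scale hm p q hj hT
  -- the core set
  let Jset : Finset α := symmDiff (p a) (q a) \ (C.biUnion (fun k => symmDiff (q k) (q a)))
  have hJ : D / (2 * s) ≤ (Jset.card : ℝ) := by
    have h1 : (symmDiff (p a) (q a)).card ≤ Jset.card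
        + (C.biUnion (fun k => symmDiff (q k) (q a))).card := by
      exact Finset.card_le_card_sdiff_add_card
    have h2 : ((C.biUnion (fun k => symmDiff (q k) (q a))).card : ℝ) ≤ s * η := by
      have h3 : (C.biUnion (fun k => symmDiff (q k) (q a))).card
          ≤ ∑ k ∈ C, (symmDiff (q k) (q a)).card := Finset.card_biUnion_le
      have h4 : ((C.biUnion (fun k => symmDiff (q k) (q a))).card : ℝ)
          ≤ ∑ k ∈ C, hd (q k) (q a) := by
        unfold hd
        exact_mod_cast h3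
      have h5 : ∑ k ∈ C, hd (q k) (q a) ≤ ∑ _k ∈ C, η := Finset.sum_le_sum hq
      simp only [Finset.sum_const, nsmul_eq_mul] at h5
      have h6 : (C.card : ℝ) ≤ s := by
        have := Finset.card_le_univ C
        rw [Fintype.card_fin] at this
        exact_mod_cast this
      have := mul_le_mul_of_nonneg_right h6 hη0
      linarith
    have h7 : hd (p a) (q a) ≤ (Jset.card : ℝ) + s * η := by
      have : ((symmDiff (p a) (q a)).card : ℝ) ≤ (Jset.card : ℝ)
        + ((C.biUnion (fun k => symmDiff (q k) (q a))).card : ℝ) := by exact_mod_cast h1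
      unfold hd
      linarith
    rw [div_le_iff₀ (by positivity)]
    nlinarith
  let V : Option (Fin s) → Finset α := fun o => o.elim Jset (fun k => symmDiff (p a) (q k))
  let T0 : Finset (Fin s) := univ.filter (fun k => k ∉ C)
  have hG : ∏ o ∈ Finset.insertNone T0, (1 - (1 - x) ^ (V o).card) ≤ G x p q := by
    refine G_lower x0 x1 p q _ V ?_
    intro P hP
    refine ⟨p a ∩ P, ?_⟩
    have hpos1 : mult p P (p a ∩ P) ≠ 0 := by
      rw [mult_eq_card]
      have : (univ.filter (fun i => p i ∩ P = p a ∩ P)).card ≠ 0 := by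
        rw [Finset.card_ne_zero]
        exact ⟨a, Finset.mem_filter.2 ⟨Finset.mem_univ _, rfl⟩⟩
      exact_mod_cast this
    have hzero : mult q P (p a ∩ P) = 0 := by
      unfold mult
      apply Finset.sum_eq_zero
      intro k _
      rw [if_neg]
      intro heq
      by_cases hk : k ∈ C
      · have hJP := hP none (by simp)
        rw [Finset.not_disjoint_iff] at hJP
        obtain ⟨c, hcP, hcJ⟩ := hJP
        have hcJ' : c ∈ symmDiff (p a) (q a) \ (C.biUnion (fun k => symmDiff (q k) (q a))) := hcJ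
        rw [Finset.mem_sdiff, Finset.mem_biUnion] at hcJ'
        obtain ⟨hc1, hc2⟩ := hcJ'
        have hc3 : c ∉ symmDiff (q k) (q a) := fun h => hc2 ⟨k, hk, h⟩
        have hc4 : c ∈ q k ∩ P ↔ c ∈ p a ∩ P := by rw [heq]
        simp only [Finset.mem_inter, hcP, and_true] at hc4
        rw [Finset.mem_symmDiff] at hc1 hc3
        tauto
      · have hkT : some k ∈ Finset.insertNone T0 := by
          rw [Finset.some_mem_insertNone]
          exact Finset.mem_filter.2 ⟨Finset.mem_univ _, hk⟩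
        exact hP (some k) hkT (disjoint_of_inter_eq _ _ _ heq.symm)
    rw [hzero]
    exact hpos1
  rw [Finset.prod_insertNone] at hG
  have hT2 : T0.card ≤ s := by
    refine (Finset.card_le_univ _).trans ?_
    simp
  have hprod : (1 : ℝ) / 2 ≤ ∏ k ∈ T0, (1 - (1 - x) ^ (V (some k)).card) := by
    apply prod_half T0 _ hT2
    intro k hk
    have h1 : R ≤ hd (p a) (p k) := hmin k hk
    have h2 := hd_triangle (p a) (q k) (p k)
    have h3 := hcost k
    rw [hd_comm (q k) (p k)] at h2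
    have e3 : ((V (some k)).card : ℝ) = hd (p a) (q k) := rfl
    apply factor_big (by positivity) _ _ e1
    · rw [e3]
      have : 2 * (s : ℝ) * (R / (4 * s)) = R / 2 := by field_simp; norm_num
      rw [this]
      linarith
    · have : (0 : ℝ) < ((V (some k)).card : ℝ) := by rw [e3]; linarith
      exact_mod_cast this
  set y : ℝ := D / (2 * s) / 2 ^ j with hy
  have hy0 : 0 ≤ y := by positivity
  have hy1 : y ≤ 2 := by
    rw [hy, div_le_iff₀ hpj, div_le_iff₀ (by positivity)]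
    rw [div_lt_iff₀ (by positivity)] at e2
    nlinarith
  have hnone : y / 3 ≤ 1 - (1 - x) ^ (V none).card := by
    have hyy : y ≤ ((V none).card : ℝ) * x := by
      have e3 : ((V none).card : ℝ) = (Jset.card : ℝ) := rfl
      rw [e3, hx, ← div_eq_mul_inv, hy]
      exact div_le_div_of_nonneg_right hJ hpj.le
    refine le_trans ?_ (factor_lower x0 x1 hy0 _ hyy)
    rw [div_le_div_iff₀ (by norm_num) (by linarith)]
    nlinarith
  have hall : y / 3 * (1 / 2) ≤ G x p q := by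
    refine le_trans ?_ hG
    exact mul_le_mul hnone hprod (by positivity) (by linarith [hy0])
  have h9 := mul_le_mul_of_nonneg_left hall hpj.le
  have h10 : (2 : ℝ) ^ j * (y / 3 * (1 / 2)) = 2 * (1 / (24 * s) * D) := by
    rw [hy]
    field_simp
    norm_num
  linarith

end Lower

end R307.EM
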