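import Pool.Agent.R307.EM.Lower

set_option linter.unusedSectionVars false

namespace R307.EM

open Finset

section Main

variable {α : Type*} [Fintype α] [DecidableEq α] {s : ℕ}

lemma NN_nonneg (m : ℕ) (p q : Fin s → Finset α) : 0 ≤ NN m p q := by
  unfold NN
  exact add_nonneg (LL_nonneg p q) (Finset.sum_nonneg (fun j _ => EE_nonneg m j p q))

theorem NN_lower {m : ℕ} (hm : 1 ≤ m) (hs : 0 < s) (hsm : 24 * (s : ℝ) ^ 3 ≤ 2 ^ m)
    (p q : Fin s → Finset α)
    (hopt : ∀ σ : Equiv.Perm (Fin s), cost p q ≤ ∑ i, hd (p i) (q (σ i))) :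
    1 / (64 * s ^ 3) * cost p q ≤ NN m p q := by
  classical
  have hs' : (0 : ℝ) < s := by exact_mod_cast hs
  have hs1 : (1 : ℝ) ≤ s := by exact_mod_cast hs
  have hs3 : (1 : ℝ) ≤ (s : ℝ) ^ 3 := one_le_pow₀ hs1
  have hs13 : (s : ℝ) ≤ s ^ 3 := by
    calc (s : ℝ) = s ^ 1 := by ring
      _ ≤ s ^ 3 := pow_le_pow_right₀ hs1 (by norm_num)
  set D := cost p q with hDdef
  rcases (cost_nonneg p q).eq_or_lt with h0 | hD
  · rw [← hDdef] at h0
    rw [← h0, mul_zero]; exact NN_nonneg m p q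
  rw [← hDdef] at hD
  set ε : ℝ := 1 / (8 * (s : ℝ) ^ 2) with hε
  have hε0 : 0 < ε := by positivity
  have c1 : 1 / (64 * (s : ℝ) ^ 3) ≤ 1 / 2 :=
    div_le_div_of_nonneg_left (by norm_num) (by norm_num) (by linarith)
  have c3 : 1 / (64 * (s : ℝ) ^ 3) ≤ 1 / (24 * s) :=
    div_le_div_of_nonneg_left (by norm_num) (by positivity) (by linarith)
  by_cases hA : ∃ i k, ε * D ≤ hd (p i) (p k) ∧ hd (p i) (p k) ≤ 3 * D
  · obtain ⟨i, k, h1, h2⟩ := hA
    exact caseA hm hs hsm p q hD hopt i k h1 h2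
  by_cases hB : ∃ i k, ε * D ≤ hd (q i) (q k) ∧ hd (q i) (q k) ≤ 3 * D
  · obtain ⟨i, k, h1, h2⟩ := hB
    rw [NN_comm]
    refine caseA hm hs hsm q p hD ?_ i k h1 h2
    intro σ
    have h3 := hopt σ⁻¹
    have h4 : ∑ i, hd (p i) (q (σ⁻¹ i)) = ∑ i, hd (q i) (p (σ i)) := by
      rw [← Equiv.sum_comp σ (fun i => hd (p i) (q (σ⁻¹ i)))]
      refine Finset.sum_congr rfl (fun i _ => ?_)
      rw [hd_comm]
      simp
    rw [h4] at h3
    exact h3
  push Not at hA hB
  obtain ⟨a, ha⟩ : ∃ a, D ≤ s * hd (p a) (q a) := by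
    by_contra hno
    push Not at hno
    have hsum : ∑ i, (s : ℝ) * hd (p i) (q i) < ∑ _i : Fin s, D :=
      Finset.sum_lt_sum_of_nonempty ⟨⟨0, hs⟩, Finset.mem_univ _⟩ (fun i _ => hno i)
    rw [← Finset.mul_sum] at hsum
    simp only [Finset.sum_const, Finset.card_univ, Fintype.card_fin, nsmul_eq_mul] at hsum
    exact lt_irrefl _ hsum
  have hcost : ∀ k, hd (p k) (q k) ≤ D := fun k =>
    Finset.single_le_sum (f := fun k => hd (p k) (q k)) (fun i _ => hd_nonneg _ _)
      (Finset.mem_univ k)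
  have hεs : 2 * (s : ℝ) ^ 2 * ε = 1 / 4 := by rw [hε]; field_simp; norm_num
  have hε1 : ε ≤ 1 / 8 := by
    rw [hε]
    exact div_le_div_of_nonneg_left (by norm_num) (by norm_num) (by nlinarith)
  set C : Finset (Fin s) := univ.filter (fun k => hd (p a) (p k) < ε * D) with hC
  have hq : ∀ k ∈ C, hd (q k) (q a) ≤ ε * D := by
    intro k hk
    have h1 := (Finset.mem_filter.1 hk).2
    by_contra h2
    push Not at h2
    have h3 := hB k a h2.le
    have h4 := hd_triangle (q k) (p k) (q a)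
    have h5 := hd_triangle (p k) (p a) (q a)
    have h6 := hcost k
    have h7 := hcost a
    rw [hd_comm (q k) (p k)] at h4
    rw [hd_comm (p k) (p a)] at h5
    nlinarith
  have hfar : ∀ k, k ∉ C → 3 * D < hd (p a) (p k) := by
    intro k hk
    apply hA
    by_contra h
    push Not at h
    exact hk (Finset.mem_filter.2 ⟨Finset.mem_univ _, h⟩)
  by_cases hne : ∃ k, k ∉ C
  · refine (mul_le_mul_of_nonneg_right c3 hD.le).trans
      (caseB2 hm hs hsm p q hD hcost a ha C (by positivity) hq ?_ hfar hne)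
    have : 2 * (s : ℝ) ^ 2 * (ε * D) = (2 * (s : ℝ) ^ 2 * ε) * D := by ring
    rw [this, hεs]
    linarith
  · push Not at hne
    have h1 := caseB1 (D := D) (η := ε * D) m p q a ha
      (fun k => by rw [hd_comm]; exact (Finset.mem_filter.1 (hne k)).2.le)
      (fun k => hq k (hne k))
    have h2 : 2 * (s : ℝ) * (ε * D) ≤ 1 / 4 * D := by
      have : 2 * (s : ℝ) * ε ≤ 1 / 4 := by
        rw [← hεs]
        nlinarith
      calc 2 * (s : ℝ) * (ε * D) = (2 * (s : ℝ) * ε) * D := by ring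
        _ ≤ 1 / 4 * D := mul_le_mul_of_nonneg_right this hD.le
    have h3 := mul_le_mul_of_nonneg_right c1 hD.le
    linarith

lemma TT_perm (m j : ℕ) (p : Fin s → Finset α) (σ : Equiv.Perm (Fin s)) :
    TT m j (fun i => p (σ i)) = TT m j p := by
  unfold TT
  rw [← Equiv.sum_comp σ (fun i => ∑ k, tent m j (hd (p i) (p k)))]
  refine Finset.sum_congr rfl (fun i _ => ?_)
  exact Equiv.sum_comp σ (fun k => tent m j (hd (p (σ i)) (p k)))

lemma coordF_perm (m j : ℕ) (p : Fin s → Finset α) (σ : Equiv.Perm (Fin s)) (P Z : Finset α) :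
    coordF m j (fun i => p (σ i)) P Z = coordF m j p P Z := by
  unfold coordF
  rw [TT_perm, mult_perm]

lemma coordL_perm (p : Fin s → Finset α) (σ : Equiv.Perm (Fin s)) (c : α) :
    coordL (fun i => p (σ i)) c = coordL p c := by
  unfold coordL
  exact Equiv.sum_comp σ (fun i => if c ∈ p i then (1 : ℝ) else 0)

/-- The embedding, with values in a finite dimensional space. -/
noncomputable def Psi (m : ℕ) (p : Fin s → Finset α) :
    α ⊕ (Fin (Fintype.card α) × Finset α × Finset α) → ℝ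
  | Sum.inl c => coordL p c
  | Sum.inr u => coordF m (u.1 : ℕ) p u.2.1 u.2.2

lemma Psi_perm (m : ℕ) (p : Fin s → Finset α) (σ : Equiv.Perm (Fin s)) :
    Psi m (fun i => p (σ i)) = Psi m p := by
  funext u
  cases u with
  | inl c => exact coordL_perm p σ c
  | inr u => exact coordF_perm _ _ p σ _ _

lemma sum_Psi (m : ℕ) (p q : Fin s → Finset α) :
    ∑ u, |Psi m p u - Psi m q u| = NN m p q := by
  rw [Fintype.sum_sum_type]
  unfold NN LL
  congr 1
  rw [Fintype.sum_prod_type, Finset.sum_range]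
  refine Finset.sum_congr rfl (fun j _ => ?_)
  rw [Fintype.sum_prod_type]
  rfl

/-- Both bounds together. -/
theorem Psi_bounds {m : ℕ} (hm : 1 ≤ m) (hs : 0 < s) (hsm : 24 * (s : ℝ) ^ 3 ≤ 2 ^ m)
    (p q : Fin s → Finset α) :
    (∀ σ : Equiv.Perm (Fin s), ∑ u, |Psi m p u - Psi m q u| ≤
      (1 + 8 * s ^ 2 + 2 * m * s ^ 2) * ∑ i, hd (p i) (q (σ i))) ∧
    (∃ σ : Equiv.Perm (Fin s),
      1 / (64 * s ^ 3) * ∑ i, hd (p i) (q (σ i)) ≤ ∑ u, |Psi m p u - Psi m q u|) := by
  constructor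
  · intro σ
    have h := NN_upper hm p (fun i => q (σ i))
    rw [← sum_Psi, Psi_perm] at h
    exact h
  · obtain ⟨σ, -, hσ⟩ := Finset.exists_min_image (univ : Finset (Equiv.Perm (Fin s)))
      (fun σ => ∑ i, hd (p i) (q (σ i))) ⟨1, Finset.mem_univ _⟩
    refine ⟨σ, ?_⟩
    have h := NN_lower hm hs hsm p (fun i => q (σ i)) (by
      intro τ
      have := hσ (σ * τ) (Finset.mem_univ _)
      exact this)
    rw [← sum_Psi, Psi_perm] at h
    exact h

end Main

end R307.EM
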