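import Pool.Agent.R307.EM.Cube

set_option linter.unusedSectionVars false

namespace R307.EM

open Finset

section Mult

variable {α : Type*} [Fintype α] [DecidableEq α] {s : ℕ}

/-- Hamming distance of finite sets. -/
noncomputable def hd (A B : Finset α) : ℝ := ((symmDiff A B).card : ℝ)

lemma hd_nonneg (A B : Finset α) : 0 ≤ hd A B := by unfold hd; positivity

lemma hd_self (A : Finset α) : hd A A = 0 := by unfold hd; simp

lemma hd_comm (A B : Finset α) : hd A B = hd B A := by unfold hd; rw [symmDiff_comm]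

lemma hd_triangle (A B C : Finset α) : hd A C ≤ hd A B + hd B C := by
  unfold hd
  have h : symmDiff A C ⊆ symmDiff A B ∪ symmDiff B C := symmDiff_triangle A B C
  have h2 := (Finset.card_le_card h).trans (Finset.card_union_le _ _)
  exact_mod_cast h2

lemma hd_le_card (A B : Finset α) : (symmDiff A B).card ≤ Fintype.card α :=
  Finset.card_le_univ _

/-- Number of members of the tuple whose trace on `P` is `Z`. -/
noncomputable def mult (p : Fin s → Finset α) (P Z : Finset α) : ℝ :=
  ∑ i, if p i ∩ P = Z then (1 : ℝ) else 0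

lemma mult_eq_card (p : Fin s → Finset α) (P Z : Finset α) :
    mult p P Z = ((univ.filter (fun i => p i ∩ P = Z)).card : ℝ) := by
  unfold mult
  rw [Finset.sum_boole]

lemma mult_nonneg (p : Fin s → Finset α) (P Z : Finset α) : 0 ≤ mult p P Z := by
  rw [mult_eq_card]; positivity

lemma sum_mult (p : Fin s → Finset α) (P : Finset α) : ∑ Z, mult p P Z = s := by
  unfold mult
  rw [Finset.sum_comm]
  simp

lemma one_le_abs_of_ne (p q : Fin s → Finset α) (P Z : Finset α)
    (h : mult p P Z ≠ mult q P Z) : 1 ≤ |mult p P Z - mult q P Z| := by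
  rw [mult_eq_card, mult_eq_card] at h ⊢
  set a := (univ.filter (fun i => p i ∩ P = Z)).card
  set b := (univ.filter (fun i => q i ∩ P = Z)).card
  have hab : a ≠ b := fun h' => h (by rw [h'])
  have hz : ((a : ℤ) - (b : ℤ)) ≠ 0 := by omega
  have := Int.one_le_abs hz
  have h3 : ((1 : ℤ) : ℝ) ≤ ((|(a : ℤ) - (b : ℤ)| : ℤ) : ℝ) := by exact_mod_cast this
  push_cast at h3
  exact h3

lemma inter_eq_of_disjoint (A B P : Finset α) (h : Disjoint P (symmDiff A B)) :
    A ∩ P = B ∩ P := by
  ext c
  simp only [Finset.mem_inter]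
  constructor
  · rintro ⟨hA, hP⟩
    refine ⟨?_, hP⟩
    by_contra hB
    exact (Finset.disjoint_left.1 h hP) (by rw [Finset.mem_symmDiff]; exact Or.inl ⟨hA, hB⟩)
  · rintro ⟨hB, hP⟩
    refine ⟨?_, hP⟩
    by_contra hA
    exact (Finset.disjoint_left.1 h hP) (by rw [Finset.mem_symmDiff]; exact Or.inr ⟨hB, hA⟩)

lemma disjoint_of_inter_eq (A B P : Finset α) (h : A ∩ P = B ∩ P) :
    Disjoint P (symmDiff A B) := by
  rw [Finset.disjoint_left]
  intro c hP hc
  rw [Finset.mem_symmDiff] at hc
  have h1 : c ∈ A ∩ P ↔ c ∈ B ∩ P := by rw [h]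
  simp only [Finset.mem_inter, hP, and_true] at h1
  rcases hc with ⟨ha, hb⟩ | ⟨hb, ha⟩
  · exact hb (h1.1 ha)
  · exact ha (h1.2 hb)

lemma sum_abs_ind (A B P : Finset α) :
    ∑ Z : Finset α, |(if A ∩ P = Z then (1 : ℝ) else 0) - (if B ∩ P = Z then (1 : ℝ) else 0)|
      ≤ 2 * hit P (symmDiff A B) := by
  by_cases h : Disjoint P (symmDiff A B)
  · have h2 := inter_eq_of_disjoint A B P h
    simp [h2, hit, h]
  · unfold hit
    rw [if_neg h]
    calc ∑ Z : Finset α, |(if A ∩ P = Z then (1 : ℝ) else 0) - (if B ∩ P = Z then (1 : ℝ) else 0)|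
        ≤ ∑ Z : Finset α, ((if A ∩ P = Z then (1 : ℝ) else 0)
            + (if B ∩ P = Z then (1 : ℝ) else 0)) := by
          apply Finset.sum_le_sum
          intro Z _
          split_ifs <;> norm_num
      _ = 2 * 1 := by
          rw [Finset.sum_add_distrib]
          simp
          norm_num

/-- The weighted distance at rate `x`. -/
noncomputable def G (x : ℝ) (p q : Fin s → Finset α) : ℝ :=
  ∑ P : Finset α, wt x P * ∑ Z : Finset α, |mult p P Z - mult q P Z|

lemma G_upper {x : ℝ} (h0 : 0 ≤ x) (h1 : x ≤ 1) (p q : Fin s → Finset α) :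
    G x p q ≤ 2 * x * ∑ i, hd (p i) (q i) := by
  unfold G
  have step : ∀ P : Finset α, ∑ Z : Finset α, |mult p P Z - mult q P Z|
      ≤ ∑ i, 2 * hit P (symmDiff (p i) (q i)) := by
    intro P
    calc ∑ Z : Finset α, |mult p P Z - mult q P Z|
        ≤ ∑ Z : Finset α, ∑ i, |(if p i ∩ P = Z then (1 : ℝ) else 0)
            - (if q i ∩ P = Z then (1 : ℝ) else 0)| := by
          apply Finset.sum_le_sum
          intro Z _
          unfold mult
          rw [← Finset.sum_sub_distrib]
          exact Finset.abs_sum_le_sum_abs _ _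
      _ = ∑ i, ∑ Z : Finset α, |(if p i ∩ P = Z then (1 : ℝ) else 0)
            - (if q i ∩ P = Z then (1 : ℝ) else 0)| := Finset.sum_comm
      _ ≤ _ := Finset.sum_le_sum (fun i _ => sum_abs_ind _ _ _)
  calc ∑ P : Finset α, wt x P * ∑ Z : Finset α, |mult p P Z - mult q P Z|
      ≤ ∑ P : Finset α, wt x P * ∑ i, 2 * hit P (symmDiff (p i) (q i)) :=
        Finset.sum_le_sum (fun P _ => mul_le_mul_of_nonneg_left (step P) (wt_nonneg h0 h1 P))
    _ = ∑ i, 2 * ∑ P : Finset α, wt x P * hit P (symmDiff (p i) (q i)) := by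
        simp_rw [Finset.mul_sum]
        rw [Finset.sum_comm]
        refine Finset.sum_congr rfl (fun i _ => Finset.sum_congr rfl (fun P _ => by ring))
    _ ≤ ∑ i, 2 * (x * hd (p i) (q i)) := by
        apply Finset.sum_le_sum
        intro i _
        rw [sum_wt_hit]
        have hb := one_add_mul_le_pow (a := -x) (by linarith) (symmDiff (p i) (q i)).card
        unfold hd
        have e : (1 + -x) = 1 - x := by ring
        rw [e] at hb
        nlinarith
    _ = 2 * x * ∑ i, hd (p i) (q i) := by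
        rw [Finset.mul_sum]
        exact Finset.sum_congr rfl (fun i _ => by ring)

lemma G_lower {κ : Type*} {x : ℝ} (h0 : 0 ≤ x) (h1 : x ≤ 1) (p q : Fin s → Finset α)
    (T : Finset κ) (V : κ → Finset α)
    (h : ∀ P : Finset α, (∀ k ∈ T, ¬ Disjoint P (V k)) → ∃ Z, mult p P Z ≠ mult q P Z) :
    ∏ k ∈ T, (1 - (1 - x) ^ (V k).card) ≤ G x p q := by
  refine (prob_hits h0 h1 T V).trans ?_
  unfold G
  apply Finset.sum_le_sum
  intro P _
  apply mul_le_mul_of_nonneg_left _ (wt_nonneg h0 h1 P)
  by_cases hP : ∀ k ∈ T, ¬ Disjoint P (V k)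
  · obtain ⟨Z, hZ⟩ := h P hP
    have e : ∏ k ∈ T, hit P (V k) = 1 := by
      apply Finset.prod_eq_one
      intro k hk
      unfold hit
      rw [if_neg (hP k hk)]
    rw [e]
    exact (one_le_abs_of_ne p q P Z hZ).trans
      (Finset.single_le_sum (f := fun Z => |mult p P Z - mult q P Z|)
        (fun Z _ => abs_nonneg _) (Finset.mem_univ Z))
  · push Not at hP
    obtain ⟨k, hk, hd⟩ := hP
    have e : ∏ k ∈ T, hit P (V k) = 0 := by
      apply Finset.prod_eq_zero hk
      unfold hit
      rw [if_pos hd]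
    rw [e]
    exact Finset.sum_nonneg (fun Z _ => abs_nonneg _)

lemma mult_perm (p : Fin s → Finset α) (σ : Equiv.Perm (Fin s)) (P Z : Finset α) :
    mult (fun i => p (σ i)) P Z = mult p P Z := by
  unfold mult
  exact Equiv.sum_comp σ (fun i => if p i ∩ P = Z then (1 : ℝ) else 0)

/-- Equal multiplicities give a matching of the traces. -/
lemma exists_perm_of_mult_eq (p q : Fin s → Finset α) (P : Finset α)
    (h : ∀ Z, mult p P Z = mult q P Z) :
    ∃ σ : Equiv.Perm (Fin s), ∀ i, p i ∩ P = q (σ i) ∩ P := by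
  have hc : ∀ Z : Finset α, Fintype.card {i : Fin s // p i ∩ P = Z}
      = Fintype.card {i : Fin s // q i ∩ P = Z} := by
    intro Z
    have := h Z
    rw [mult_eq_card, mult_eq_card] at this
    have h2 : (univ.filter (fun i => p i ∩ P = Z)).card
        = (univ.filter (fun i => q i ∩ P = Z)).card := by exact_mod_cast this
    rw [Fintype.card_subtype, Fintype.card_subtype]
    exact h2
  have e : ∀ Z : Finset α, {i : Fin s // p i ∩ P = Z} ≃ {i : Fin s // q i ∩ P = Z} :=
    fun Z => Fintype.equivOfCardEq (hc Z)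
  let E1 := Equiv.sigmaFiberEquiv (fun i : Fin s => p i ∩ P)
  let E2 := Equiv.sigmaFiberEquiv (fun i : Fin s => q i ∩ P)
  let E3 := Equiv.sigmaCongrRight e
  refine ⟨E1.symm.trans (E3.trans E2), fun i => ?_⟩
  have : (E3 (E1.symm i)).2.1 = (E1.symm.trans (E3.trans E2)) i := rfl
  rw [← this]
  have h4 := (E3 (E1.symm i)).2.2
  rw [h4]
  rfl

end Mult

end R307.EM
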