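import Pool.Agent.R307.EM.Main

set_option linter.unusedSectionVars false

namespace R307.EM

open Finset

/-- sign of a boolean -/
def sg (b : Bool) : ℝ := if b then 1 else -1

/-- Rademacher sum -/
noncomputable def rad {d : ℕ} (v : Fin d → ℝ) (ε : Fin d → Bool) : ℝ := ∑ i, sg (ε i) * v i

lemma rad_cons {d : ℕ} (v : Fin (d + 1) → ℝ) (b : Bool) (ε : Fin d → Bool) :
    rad v (Fin.cons b ε : Fin (d + 1) → Bool) = sg b * v 0 + rad (fun i => v i.succ) ε := by
  unfold rad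
  rw [Fin.sum_univ_succ]
  simp

lemma sum_signs_succ {d : ℕ} (F : (Fin (d + 1) → Bool) → ℝ) :
    ∑ ε : Fin (d + 1) → Bool, F ε
      = ∑ ε : Fin d → Bool, (F (Fin.cons true ε : Fin (d + 1) → Bool)
        + F (Fin.cons false ε : Fin (d + 1) → Bool)) := by
  rw [← (Fin.consEquiv (fun _ : Fin (d + 1) => Bool)).sum_comp F, Fintype.sum_prod_type]
  rw [Fintype.sum_bool, ← Finset.sum_add_distrib]
  rfl

lemma moment2 {d : ℕ} (v : Fin d → ℝ) :
    ∑ ε : Fin d → Bool, rad v ε ^ 2 = 2 ^ d * ∑ i, v i ^ 2 := by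
  induction d with
  | zero => simp [rad]
  | succ d ih =>
    rw [sum_signs_succ]
    have h : ∀ ε : Fin d → Bool, rad v (Fin.cons true ε : Fin (d + 1) → Bool) ^ 2
        + rad v (Fin.cons false ε : Fin (d + 1) → Bool) ^ 2
        = 2 * v 0 ^ 2 + 2 * rad (fun i => v i.succ) ε ^ 2 := by
      intro ε
      rw [rad_cons, rad_cons]
      simp only [sg]
      norm_num
      ring
    simp_rw [h, Finset.sum_add_distrib, ← Finset.mul_sum]
    rw [ih, Fin.sum_univ_succ]
    simp only [Finset.sum_const, Finset.card_univ, nsmul_eq_mul]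
    rw [Fintype.card_fun]
    simp only [Fintype.card_bool, Fintype.card_fin, Nat.cast_pow, Nat.cast_ofNat]
    ring

lemma moment4 {d : ℕ} (v : Fin d → ℝ) :
    ∑ ε : Fin d → Bool, rad v ε ^ 4 ≤ 3 * 2 ^ d * (∑ i, v i ^ 2) ^ 2 := by
  induction d with
  | zero => simp [rad]
  | succ d ih =>
    rw [sum_signs_succ]
    have h : ∀ ε : Fin d → Bool, rad v (Fin.cons true ε : Fin (d + 1) → Bool) ^ 4
        + rad v (Fin.cons false ε : Fin (d + 1) → Bool) ^ 4
        = 2 * v 0 ^ 4 + (12 * v 0 ^ 2) * rad (fun i => v i.succ) ε ^ 2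
          + 2 * rad (fun i => v i.succ) ε ^ 4 := by
      intro ε
      rw [rad_cons, rad_cons]
      simp only [sg]
      norm_num
      ring
    simp_rw [h, Finset.sum_add_distrib, ← Finset.mul_sum]
    rw [moment2, Fin.sum_univ_succ]
    have h2 := ih (fun i => v i.succ)
    simp only [Finset.sum_const, Finset.card_univ, nsmul_eq_mul]
    rw [Fintype.card_fun]
    simp only [Fintype.card_bool, Fintype.card_fin, Nat.cast_pow, Nat.cast_ofNat]
    set V := ∑ i : Fin d, v i.succ ^ 2 with hV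
    have hV0 : 0 ≤ V := Finset.sum_nonneg (fun i _ => sq_nonneg _)
    have hp : (0 : ℝ) < 2 ^ d := by positivity
    have h3 : (2 : ℝ) ^ (d + 1) = 2 * 2 ^ d := by ring
    rw [h3]
    have h4 : 0 ≤ (2 : ℝ) ^ d * v 0 ^ 4 := by positivity
    nlinarith

lemma sum_abs_rad_le {d : ℕ} (v : Fin d → ℝ) {σ : ℝ} (hσ : 0 < σ) (h : σ ^ 2 = ∑ i, v i ^ 2) :
    ∑ ε : Fin d → Bool, |rad v ε| ≤ 2 ^ d * σ := by
  have h1 : ∀ ε : Fin d → Bool, |rad v ε| ≤ (rad v ε ^ 2 + σ ^ 2) / (2 * σ) := by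
    intro ε
    rw [le_div_iff₀ (by positivity)]
    have := sq_nonneg (|rad v ε| - σ)
    have h2 := sq_abs (rad v ε)
    nlinarith
  calc ∑ ε : Fin d → Bool, |rad v ε|
      ≤ ∑ ε : Fin d → Bool, (rad v ε ^ 2 + σ ^ 2) / (2 * σ) := Finset.sum_le_sum (fun ε _ => h1 ε)
    _ = 2 ^ d * σ := by
      rw [← Finset.sum_div, Finset.sum_add_distrib, moment2, ← h]
      simp only [Finset.sum_const, Finset.card_univ, nsmul_eq_mul]
      rw [Fintype.card_fun]
      simp only [Fintype.card_bool, Fintype.card_fin, Nat.cast_pow, Nat.cast_ofNat]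
      field_simp
      ring

lemma le_sum_abs_rad {d : ℕ} (v : Fin d → ℝ) {σ : ℝ} (hσ : 0 < σ) (h : σ ^ 2 = ∑ i, v i ^ 2) :
    2 ^ d * σ ≤ 2 * ∑ ε : Fin d → Bool, |rad v ε| := by
  have h1 : ∀ ε : Fin d → Bool, 12 * σ ^ 2 * rad v ε ^ 2 - rad v ε ^ 4
      ≤ 16 * σ ^ 3 * |rad v ε| := by
    intro ε
    set u := |rad v ε| with hu
    have hu0 : 0 ≤ u := abs_nonneg _
    have e2 : rad v ε ^ 2 = u ^ 2 := (sq_abs _).symm
    have e4 : rad v ε ^ 4 = u ^ 4 := by
      calc rad v ε ^ 4 = (rad v ε ^ 2) ^ 2 := by ring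
        _ = u ^ 4 := by rw [e2]; ring
    rw [e2, e4]
    have : 0 ≤ u * (u - 2 * σ) ^ 2 * (u + 4 * σ) := by positivity
    nlinarith
  have h2 := Finset.sum_le_sum (s := (univ : Finset (Fin d → Bool))) (fun ε _ => h1 ε)
  rw [Finset.sum_sub_distrib, ← Finset.mul_sum, ← Finset.mul_sum, moment2, ← h] at h2
  have h3 := moment4 v
  rw [← h] at h3
  set A := ∑ ε : Fin d → Bool, |rad v ε| with hA
  have h5 : 9 * 2 ^ d * σ ^ 4 ≤ 16 * σ ^ 3 * A := by nlinarith
  have h6 : σ ^ 3 * (9 * 2 ^ d * σ) ≤ σ ^ 3 * (16 * A) := by nlinarith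
  have h7 := le_of_mul_le_mul_left h6 (by positivity)
  have : (0 : ℝ) < 2 ^ d * σ := by positivity
  linarith

/-- Threshold embedding of integer vectors into a cube. -/
noncomputable def thr {β : Type*} [Fintype β] [DecidableEq β] (L : ℕ) (g : β → ℕ) :
    Finset (β × Fin L) := univ.filter (fun u => (u.2 : ℕ) < g u.1)

lemma sum_thr_aux (L a b : ℕ) (ha : a ≤ L) (hb : b ≤ L) :
    ∑ t : Fin L, |(if (t : ℕ) < a then (1 : ℝ) else 0) - (if (t : ℕ) < b then 1 else 0)|
      = |(a : ℝ) - b| := by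
  have key : ∀ a b : ℕ, a ≤ L → b ≤ L → a ≤ b →
      ∑ t : Fin L, |(if (t : ℕ) < a then (1 : ℝ) else 0) - (if (t : ℕ) < b then 1 else 0)|
      = |(a : ℝ) - b| := by
    intro a b ha hb hab
    have h1 : ∀ t : Fin L, |(if (t : ℕ) < a then (1 : ℝ) else 0) - (if (t : ℕ) < b then 1 else 0)|
        = (if (t : ℕ) < b then (1 : ℝ) else 0) - (if (t : ℕ) < a then 1 else 0) := by
      intro t
      by_cases h1 : (t : ℕ) < a
      · have h2 : (t : ℕ) < b := lt_of_lt_of_le h1 hab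
        simp [h1, h2]
      · by_cases h2 : (t : ℕ) < b <;> simp [h1, h2]
    simp_rw [h1]
    have h2 : ∀ c : ℕ, c ≤ L → ∑ t : Fin L, (if (t : ℕ) < c then (1 : ℝ) else 0) = c := by
      intro c hc
      rw [Fin.sum_univ_eq_sum_range (fun t => if t < c then (1 : ℝ) else 0) L]
      rw [Finset.sum_boole]
      have : (range L).filter (fun t => t < c) = range c := by
        ext t
        simp only [Finset.mem_filter, Finset.mem_range]
        omega
      rw [this, Finset.card_range]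
    rw [Finset.sum_sub_distrib, h2 b hb, h2 a ha]
    have : (a : ℝ) ≤ b := by exact_mod_cast hab
    rw [abs_sub_comm, abs_of_nonneg (by linarith)]
  rcases le_total a b with h | h
  · exact key a b ha hb h
  · rw [abs_sub_comm, ← key b a hb ha h]
    exact Finset.sum_congr rfl (fun t _ => abs_sub_comm _ _)

lemma hd_thr {β : Type*} [Fintype β] [DecidableEq β] (L : ℕ) (g h : β → ℕ)
    (hg : ∀ b, g b ≤ L) (hh : ∀ b, h b ≤ L) :
    hd (thr L g) (thr L h) = ∑ b, |(g b : ℝ) - h b| := by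
  rw [← ind_abs_sum, Fintype.sum_prod_type]
  refine Finset.sum_congr rfl (fun b _ => ?_)
  rw [← sum_thr_aux L (g b) (h b) (hg b) (hh b)]
  refine Finset.sum_congr rfl (fun t _ => ?_)
  simp [thr]

end R307.EM
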