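import Mathlib

namespace R307.EM

open MeasureTheory Finset

/-- Step function with values `c i` on `[i, i+1)`. -/
noncomputable def stepF {n : ℕ} (c : Fin n → ℝ) (t : ℝ) : ℝ :=
  ∑ i : Fin n, (Set.Ico ((i : ℕ) : ℝ) ((i : ℕ) + 1)).indicator (fun _ => c i) t

lemma stepF_integrable {n : ℕ} (c : Fin n → ℝ) : Integrable (stepF c) volume := by
  unfold stepF
  apply integrable_finsetSum
  intro i _
  apply (integrable_indicator_iff measurableSet_Ico).2
  rw [integrableOn_const_iff]
  right
  simp

lemma abs_stepF {n : ℕ} (c : Fin n → ℝ) (t : ℝ) : |stepF c t| = stepF (fun i => |c i|) t := by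
  unfold stepF
  by_cases h : ∃ i : Fin n, t ∈ Set.Ico ((i : ℕ) : ℝ) ((i : ℕ) + 1)
  · obtain ⟨i, hi⟩ := h
    have hne : ∀ k : Fin n, k ≠ i → t ∉ Set.Ico ((k : ℕ) : ℝ) ((k : ℕ) + 1) := by
      intro k hk hkt
      apply hk
      obtain ⟨h1, h2⟩ := hi
      obtain ⟨h3, h4⟩ := hkt
      have h5 : ((i : ℕ) : ℝ) < (k : ℕ) + 1 := by linarith
      have h6 : ((k : ℕ) : ℝ) < (i : ℕ) + 1 := by linarith
      have h7 : (i : ℕ) < (k : ℕ) + 1 := by exact_mod_cast h5
      have h8 : (k : ℕ) < (i : ℕ) + 1 := by exact_mod_cast h6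
      exact Fin.ext (by omega)
    rw [Finset.sum_eq_single i (fun k _ hk => by rw [Set.indicator_of_notMem (hne k hk)])
      (fun h => absurd (Finset.mem_univ i) h),
      Finset.sum_eq_single i (fun k _ hk => by rw [Set.indicator_of_notMem (hne k hk)])
      (fun h => absurd (Finset.mem_univ i) h), Set.indicator_of_mem hi, Set.indicator_of_mem hi]
  · push Not at h
    rw [Finset.sum_eq_zero (fun k _ => by rw [Set.indicator_of_notMem (h k)]),
      Finset.sum_eq_zero (fun k _ => by rw [Set.indicator_of_notMem (h k)])]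
    simp

lemma integral_stepF {n : ℕ} (c : Fin n → ℝ) : ∫ t, stepF c t = ∑ i, c i := by
  unfold stepF
  rw [integral_finsetSum]
  · refine Finset.sum_congr rfl (fun i _ => ?_)
    rw [integral_indicator measurableSet_Ico, setIntegral_const]
    simp
  · intro i _
    apply (integrable_indicator_iff measurableSet_Ico).2
    rw [integrableOn_const_iff]
    right
    simp

lemma stepF_sub {n : ℕ} (c c' : Fin n → ℝ) : stepF c - stepF c' = stepF (fun i => c i - c' i) := by
  funext t
  simp only [Pi.sub_apply, stepF]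
  rw [← Finset.sum_sub_distrib]
  refine Finset.sum_congr rfl (fun i _ => ?_)
  by_cases h : t ∈ Set.Ico ((i : ℕ) : ℝ) ((i : ℕ) + 1)
  · rw [Set.indicator_of_mem h, Set.indicator_of_mem h, Set.indicator_of_mem h]
  · rw [Set.indicator_of_notMem h, Set.indicator_of_notMem h, Set.indicator_of_notMem h]
    simp

/-- A finite dimensional `ℓ_1` space embeds isometrically into `L_1` of the line. -/
theorem exists_toL1 (β : Type*) [Fintype β] :
    ∃ Φ : (β → ℝ) → Lp ℝ 1 (volume : Measure ℝ), ∀ v w, ‖Φ v - Φ w‖ = ∑ u, |v u - w u| := by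
  let e := Fintype.equivFin β
  refine ⟨fun v => (stepF_integrable (fun i => v (e.symm i))).toL1 _, fun v w => ?_⟩
  rw [← Integrable.toL1_sub]
  rw [L1.norm_of_fun_eq_integral_norm]
  have h : ∀ t, ‖(stepF (fun i => v (e.symm i)) - stepF (fun i => w (e.symm i))) t‖
      = stepF (fun i => |v (e.symm i) - w (e.symm i)|) t := by
    intro t
    rw [stepF_sub, Real.norm_eq_abs, abs_stepF]
  simp_rw [h]
  rw [integral_stepF]
  exact Equiv.sum_comp e.symm (fun u => |v u - w u|)

end R307.EM
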