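import Pool.Agent.R307.EM.Signs
import Pool.Agent.R307.EM.Defs
import Pool.Agent.R307.EM.ToL1

set_option linter.unusedSectionVars false

namespace R307.EM

open Finset

section Transfer

variable {M : Type*} [Fintype M] [DecidableEq M]

lemma unif_apply (S : Finset M) (x : M) : unif S x = if x ∈ S then 1 / (S.card : ℝ) else 0 := by
  unfold unif
  by_cases h : x ∈ S <;> simp [h]

/-- An enumeration of an `s`-point set. -/
noncomputable def enum {s : ℕ} (S : Finset M) (h : S.card = s) (i : Fin s) : M :=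
  ((S.equivFinOfCardEq h).symm i : M)

lemma enum_mem {s : ℕ} (S : Finset M) (h : S.card = s) (i : Fin s) : enum S h i ∈ S :=
  ((S.equivFinOfCardEq h).symm i).2

lemma enum_inj {s : ℕ} (S : Finset M) (h : S.card = s) : Function.Injective (enum S h) := by
  intro i k hik
  unfold enum at hik
  have := Subtype.ext hik
  exact (S.equivFinOfCardEq h).symm.injective this

lemma sum_enum {s : ℕ} (S : Finset M) (h : S.card = s) (g : M → ℝ) (hg : ∀ x, x ∉ S → g x = 0) :
    ∑ x, g x = ∑ i, g (enum S h i) := by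
  have h1 : ∑ x, g x = ∑ x ∈ S, g x := by
    symm
    apply Finset.sum_subset (Finset.subset_univ _)
    intro x _ hx
    exact hg x hx
  rw [h1, ← Finset.sum_coe_sort S g]
  exact (Equiv.sum_comp (S.equivFinOfCardEq h).symm (fun x : S => g (x : M))).symm

lemma coupling_zero_left {s : ℕ} {S T : Finset M} {π : M → M → ℝ}
    (hπ : IsCoupling (unif S) (unif T) π) {x : M} (hx : x ∉ S) (y : M) : π x y = 0 := by
  obtain ⟨h0, h1, h2⟩ := hπ
  have h3 := h1 x
  rw [unif_apply, if_neg hx] at h3
  exact (Finset.sum_eq_zero_iff_of_nonneg (fun y _ => h0 x y)).1 h3 y (Finset.mem_univ y)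

lemma coupling_zero_right {s : ℕ} {S T : Finset M} {π : M → M → ℝ}
    (hπ : IsCoupling (unif S) (unif T) π) {y : M} (hy : y ∉ T) (x : M) : π x y = 0 := by
  obtain ⟨h0, h1, h2⟩ := hπ
  have h3 := h2 y
  rw [unif_apply, if_neg hy] at h3
  exact (Finset.sum_eq_zero_iff_of_nonneg (fun x _ => h0 x y)).1 h3 x (Finset.mem_univ x)

/-- Every coupling is beaten by some matching. -/
lemma exists_matching {s : ℕ} (hs : 0 < s) (ρ : M → M → ℝ) (S T : Finset M) (hS : S.card = s)
    (hT : T.card = s) (π : M → M → ℝ) (hπ : IsCoupling (unif S) (unif T) π) :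
    ∃ σ : Equiv.Perm (Fin s), ∑ i, ρ (enum S hS i) (enum T hT (σ i))
      ≤ s * ∑ x, ∑ y, π x y * ρ x y := by
  have hs' : (0 : ℝ) < s := by exact_mod_cast hs
  set p := enum S hS with hp
  set q := enum T hT with hq
  let A : Matrix (Fin s) (Fin s) ℝ := Matrix.of (fun i k => (s : ℝ) * π (p i) (q k))
  have hA : A ∈ doublyStochastic ℝ (Fin s) := by
    rw [mem_doublyStochastic_iff_sum]
    refine ⟨fun i k => mul_nonneg hs'.le (hπ.1 _ _), fun i => ?_, fun k => ?_⟩
    · have h1 : ∑ k, A i k = s * ∑ k, π (p i) (q k) := by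
        rw [Finset.mul_sum]; rfl
      rw [h1, ← sum_enum T hT (fun y => π (p i) y)
        (fun y hy => coupling_zero_right (s := s) hπ hy _), hπ.2.1, unif_apply,
        if_pos (enum_mem S hS i), hS]
      field_simp
    · have h1 : ∑ i, A i k = s * ∑ i, π (p i) (q k) := by
        rw [Finset.mul_sum]; rfl
      rw [h1, ← sum_enum S hS (fun x => π x (q k))
        (fun x hx => coupling_zero_left (s := s) hπ hx _), hπ.2.2, unif_apply,
        if_pos (enum_mem T hT k), hT]
      field_simp
  obtain ⟨w, hw0, hw1, hw2⟩ := exists_eq_sum_perm_of_mem_doublyStochastic hA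
  have hentry : ∀ i k, A i k = ∑ σ : Equiv.Perm (Fin s), w σ * (if σ i = k then 1 else 0) := by
    intro i k
    rw [← hw2, Matrix.sum_apply]
    refine Finset.sum_congr rfl (fun σ _ => ?_)
    rw [Matrix.smul_apply, smul_eq_mul]
    congr 1
    simp [Equiv.Perm.permMatrix, PEquiv.toMatrix_apply, Equiv.toPEquiv_apply]
  have hcost : (s : ℝ) * ∑ x, ∑ y, π x y * ρ x y
      = ∑ σ : Equiv.Perm (Fin s), w σ * ∑ i, ρ (p i) (q (σ i)) := by
    rw [sum_enum S hS (fun x => ∑ y, π x y * ρ x y) (fun x hx => by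
      apply Finset.sum_eq_zero
      intro y _
      rw [coupling_zero_left (s := s) hπ hx, zero_mul])]
    have h2 : ∀ i, ∑ y, π (p i) y * ρ (p i) y = ∑ k, π (p i) (q k) * ρ (p i) (q k) := by
      intro i
      exact sum_enum T hT (fun y => π (p i) y * ρ (p i) y) (fun y hy => by
        rw [coupling_zero_right (s := s) hπ hy, zero_mul])
    simp_rw [← hp, h2]
    have h3 : (s : ℝ) * ∑ i, ∑ k, π (p i) (q k) * ρ (p i) (q k)
        = ∑ i, ∑ k, A i k * ρ (p i) (q k) := by
      rw [Finset.mul_sum]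
      refine Finset.sum_congr rfl (fun i _ => ?_)
      rw [Finset.mul_sum]
      refine Finset.sum_congr rfl (fun k _ => ?_)
      show _ = ((s : ℝ) * π (p i) (q k)) * _
      ring
    rw [h3]
    simp_rw [hentry, Finset.sum_mul, Finset.mul_sum]
    have h4 : ∀ i : Fin s, ∑ k, ∑ σ : Equiv.Perm (Fin s),
        w σ * (if σ i = k then 1 else 0) * ρ (p i) (q k)
        = ∑ σ : Equiv.Perm (Fin s), w σ * ρ (p i) (q (σ i)) := by
      intro i
      rw [Finset.sum_comm]
      refine Finset.sum_congr rfl (fun σ _ => ?_)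
      rw [Finset.sum_eq_single (σ i)]
      · simp
      · intro k _ hk
        rw [if_neg (fun h => hk h.symm)]; ring
      · intro h; exact absurd (Finset.mem_univ _) h
    simp_rw [h4]
    rw [Finset.sum_comm]
  by_contra hno
  push Not at hno
  have hlt : ∑ σ : Equiv.Perm (Fin s), w σ * (s * ∑ x, ∑ y, π x y * ρ x y)
      < ∑ σ : Equiv.Perm (Fin s), w σ * ∑ i, ρ (p i) (q (σ i)) := by
    apply Finset.sum_lt_sum
    · intro σ _
      exact mul_le_mul_of_nonneg_left (hno σ).le (hw0 σ)
    · by_contra hall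
      push Not at hall
      have hz : ∀ σ, w σ = 0 := by
        intro σ
        by_contra hne
        have hpos : 0 < w σ := lt_of_le_of_ne (hw0 σ) (Ne.symm hne)
        have := hall σ (Finset.mem_univ _)
        have h2 := mul_lt_mul_of_pos_left (hno σ) hpos
        linarith
      rw [Finset.sum_eq_zero (fun σ _ => hz σ)] at hw1
      norm_num at hw1
  rw [← Finset.sum_mul, hw1, one_mul, ← hcost] at hlt
  exact lt_irrefl _ hlt

/-- A matching gives a coupling. -/
lemma W1_le_matching {s : ℕ} (hs : 0 < s) (ρ : M → M → ℝ) (hρ : ∀ x y, 0 ≤ ρ x y)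
    (S T : Finset M) (hS : S.card = s) (hT : T.card = s) (σ : Equiv.Perm (Fin s)) :
    s * W1 ρ (unif S) (unif T) ≤ ∑ i, ρ (enum S hS i) (enum T hT (σ i)) := by
  have hs' : (0 : ℝ) < s := by exact_mod_cast hs
  set p := enum S hS with hp
  set q := enum T hT with hq
  let π : M → M → ℝ := fun x y => ∑ i, if p i = x ∧ q (σ i) = y then 1 / (s : ℝ) else 0
  have hcount : ∀ (r : Fin s → M) (U : Finset M), Function.Injective r → (∀ i, r i ∈ U) →
      U.card = s → ∀ x, (∑ i, if r i = x then 1 / (s : ℝ) else 0) = unif U x := by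
    intro r U hr hrU hU x
    rw [unif_apply, hU]
    have himg : univ.image r = U := by
      apply Finset.eq_of_subset_of_card_le
      · intro y hy
        obtain ⟨i, -, rfl⟩ := Finset.mem_image.1 hy
        exact hrU i
      · rw [Finset.card_image_of_injective _ hr, hU]; simp
    by_cases hx : x ∈ U
    · rw [if_pos hx]
      rw [← himg] at hx
      obtain ⟨i, -, rfl⟩ := Finset.mem_image.1 hx
      rw [Finset.sum_eq_single i]
      · simp
      · intro k _ hk
        rw [if_neg (fun h => hk (hr h))]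
      · intro h; exact absurd (Finset.mem_univ _) h
    · rw [if_neg hx]
      apply Finset.sum_eq_zero
      intro i _
      rw [if_neg]
      rintro rfl
      exact hx (hrU i)
  have hπ : IsCoupling (unif S) (unif T) π := by
    refine ⟨fun x y => Finset.sum_nonneg (fun i _ => by split_ifs <;> positivity), fun x => ?_,
      fun y => ?_⟩
    · rw [← hcount p S (enum_inj S hS) (enum_mem S hS) hS x]
      show ∑ y, ∑ i, _ = _
      rw [Finset.sum_comm]
      refine Finset.sum_congr rfl (fun i _ => ?_)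
      by_cases h : p i = x
      · simp [h]
      · simp [h]
    · rw [← hcount (fun i => q (σ i)) T ((enum_inj T hT).comp σ.injective)
        (fun i => enum_mem T hT (σ i)) hT y]
      show ∑ x, ∑ i, _ = _
      rw [Finset.sum_comm]
      refine Finset.sum_congr rfl (fun i _ => ?_)
      by_cases h : q (σ i) = y
      · simp [h]
      · simp [h]
  have hcost : ∑ x, ∑ y, π x y * ρ x y = 1 / s * ∑ i, ρ (p i) (q (σ i)) := by
    have h1 : ∀ x y, π x y * ρ x y
        = ∑ i, if p i = x ∧ q (σ i) = y then 1 / (s : ℝ) * ρ (p i) (q (σ i)) else 0 := by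
      intro x y
      show (∑ i, _) * _ = _
      rw [Finset.sum_mul]
      refine Finset.sum_congr rfl (fun i _ => ?_)
      by_cases h : p i = x ∧ q (σ i) = y
      · rw [if_pos h, if_pos h, h.1, h.2]
      · rw [if_neg h, if_neg h, zero_mul]
    simp_rw [h1]
    have h2 : ∀ x, ∑ y, ∑ i, (if p i = x ∧ q (σ i) = y then 1 / (s : ℝ) * ρ (p i) (q (σ i)) else 0)
        = ∑ i, if p i = x then 1 / (s : ℝ) * ρ (p i) (q (σ i)) else 0 := by
      intro x
      rw [Finset.sum_comm]
      refine Finset.sum_congr rfl (fun i _ => ?_)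
      by_cases h : p i = x <;> simp [h]
    simp_rw [h2]
    rw [Finset.sum_comm, Finset.mul_sum]
    refine Finset.sum_congr rfl (fun i _ => ?_)
    simp
  have hle : W1 ρ (unif S) (unif T) ≤ 1 / s * ∑ i, ρ (p i) (q (σ i)) := by
    unfold W1
    apply csInf_le
    · refine ⟨0, ?_⟩
      rintro c ⟨π', hπ', rfl⟩
      exact Finset.sum_nonneg (fun x _ => Finset.sum_nonneg
        (fun y _ => mul_nonneg (hπ'.1 x y) (hρ x y)))
    · exact ⟨π, hπ, hcost.symm⟩
  have := mul_le_mul_of_nonneg_left hle hs'.le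
  have e : (s : ℝ) * (1 / s * ∑ i, ρ (p i) (q (σ i))) = ∑ i, ρ (p i) (q (σ i)) := by
    field_simp
  rw [e] at this
  exact this

lemma couplings_nonempty {s : ℕ} (hs : 0 < s) (S T : Finset M) (hS : S.card = s)
    (hT : T.card = s) : ∃ π : M → M → ℝ, IsCoupling (unif S) (unif T) π := by
  have hs' : (0 : ℝ) < s := by exact_mod_cast hs
  refine ⟨fun x y => unif S x * unif T y, ?_, ?_, ?_⟩
  · intro x y
    show 0 ≤ unif S x * unif T y
    rw [unif_apply, unif_apply]
    split_ifs <;> positivity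
  · intro x
    rw [← Finset.mul_sum]
    have : ∑ y, unif T y = 1 := by
      simp_rw [unif_apply]
      rw [Finset.sum_ite_mem, Finset.univ_inter, Finset.sum_const, nsmul_eq_mul, hT]
      field_simp
    rw [this, mul_one]
  · intro y
    rw [← Finset.sum_mul]
    have : ∑ x, unif S x = 1 := by
      simp_rw [unif_apply]
      rw [Finset.sum_ite_mem, Finset.univ_inter, Finset.sum_const, nsmul_eq_mul, hS]
      field_simp
    rw [this, one_mul]

/-- The main transfer: a metric which is close to a multiple of a cube metric. -/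
theorem transfer {α : Type*} [Fintype α] [DecidableEq α] {s : ℕ} (hs : 0 < s)
    (ρ : M → M → ℝ) (e : M → Finset α) {lam κ : ℝ} (hlam : 0 < lam) (hκ : 0 < κ)
    (h1 : ∀ x y, hd (e x) (e y) ≤ lam * ρ x y) (h2 : ∀ x y, lam * ρ x y ≤ κ * hd (e x) (e y))
    {m : ℕ} (hm : 1 ≤ m) (hsm : 24 * (s : ℝ) ^ 3 ≤ 2 ^ m) :
    EmbedsL1 (fun S T : {S : Finset M // S.card = s} => W1 ρ (unif S.1) (unif T.1))
      (64 * s ^ 3 * κ * (1 + 8 * s ^ 2 + 2 * m * s ^ 2)) := by
  have hs' : (0 : ℝ) < s := by exact_mod_cast hs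
  have hρ : ∀ x y, 0 ≤ ρ x y := by
    intro x y
    have := h1 x y
    have h3 := hd_nonneg (e x) (e y)
    by_contra hneg
    push Not at hneg
    nlinarith
  obtain ⟨Φ, hΦ⟩ := exists_toL1 (α ⊕ (Fin (Fintype.card α) × Finset α × Finset α))
  set A : ℝ := 1 + 8 * s ^ 2 + 2 * m * s ^ 2 with hA
  have hA0 : 0 < A := by positivity
  refine ⟨fun S => Φ (Psi m (fun i => e (enum S.1 S.2 i))), lam * s / (64 * s ^ 3 * κ),
    by positivity, ?_⟩
  rintro ⟨S, hS⟩ ⟨T, hT⟩
  simp only
  rw [hΦ]
  obtain ⟨hup, σ, hlow⟩ := Psi_bounds hm hs hsm (fun i => e (enum S hS i))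
    (fun i => e (enum T hT i))
  set N := ∑ u, |Psi m (fun i => e (enum S hS i)) u - Psi m (fun i => e (enum T hT i)) u| with hN
  constructor
  · have h3 := W1_le_matching hs ρ hρ S T hS hT σ
    have h4 : lam * ∑ i, ρ (enum S hS i) (enum T hT (σ i))
        ≤ κ * ∑ i, hd (e (enum S hS i)) (e (enum T hT (σ i))) := by
      rw [Finset.mul_sum, Finset.mul_sum]
      exact Finset.sum_le_sum (fun i _ => h2 _ _)
    have h5 : lam * (s * W1 ρ (unif S) (unif T))
        ≤ κ * ∑ i, hd (e (enum S hS i)) (e (enum T hT (σ i))) :=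
      (mul_le_mul_of_nonneg_left h3 hlam.le).trans h4
    have h6 : ∑ i, hd (e (enum S hS i)) (e (enum T hT (σ i))) ≤ 64 * s ^ 3 * N := by
      have h7 : 64 * (s : ℝ) ^ 3 * (1 / (64 * s ^ 3)
          * ∑ i, hd (e (enum S hS i)) (e (enum T hT (σ i)))) ≤ 64 * s ^ 3 * N :=
        mul_le_mul_of_nonneg_left hlow (by positivity)
      have e1 : 64 * (s : ℝ) ^ 3 * (1 / (64 * s ^ 3)
          * ∑ i, hd (e (enum S hS i)) (e (enum T hT (σ i))))
          = ∑ i, hd (e (enum S hS i)) (e (enum T hT (σ i))) := by field_simp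
      rw [e1] at h7
      exact h7
    have h8 := mul_le_mul_of_nonneg_left h6 hκ.le
    rw [div_mul_eq_mul_div, div_le_iff₀ (by positivity)]
    linarith
  · have key : N / (A * lam * s) ≤ W1 ρ (unif S) (unif T) := by
      unfold W1
      apply le_csInf
      · obtain ⟨π, hπ⟩ := couplings_nonempty hs S T hS hT
        exact ⟨_, π, hπ, rfl⟩
      · rintro c ⟨π, hπ, rfl⟩
        obtain ⟨τ, hτ⟩ := exists_matching hs ρ S T hS hT π hπ
        have h3 := hup τ
        have h4 : ∑ i, hd (e (enum S hS i)) (e (enum T hT (τ i)))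
            ≤ lam * ∑ i, ρ (enum S hS i) (enum T hT (τ i)) := by
          rw [Finset.mul_sum]
          exact Finset.sum_le_sum (fun i _ => h1 _ _)
        have h5 := mul_le_mul_of_nonneg_left hτ hlam.le
        have h6 := mul_le_mul_of_nonneg_left (h4.trans h5) hA0.le
        rw [div_le_iff₀ (by positivity)]
        linarith
    rw [div_le_iff₀ (by positivity)] at key
    have e1 : 64 * (s : ℝ) ^ 3 * κ * A * (lam * s / (64 * s ^ 3 * κ)) * W1 ρ (unif S) (unif T)
        = W1 ρ (unif S) (unif T) * (A * lam * s) := by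
      field_simp
    rw [e1]
    exact key

end Transfer

end R307.EM
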